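import Pool.Agent.H20.TP.Step
import Pool.Agent.H20.TP.Cur
import Pool.Agent.H20.TQ.Geo
import Pool.Agent.H24.VP.Pos

/-!
# [H39 TZ N2] COROLLARY P (MP_e49dc9_ag): an effective divisor on a surface as a sum of curves

`T_dec`: `z` a surface with divisor `S`, `G` has a nonzero section on `z` with zero set `Z`: there are curves `y i` in `Z` with `T(U,G,S) = ∑ dz (y i) U` for all `U`.
PROOF.  `stz` (H20/TP/Step) for an ample `A₁`: pieces `y i ∈ Z`.  `z ∉ Z` (the section is not `0`), so `trdeg (y i) < 2` (`trdeg_lt` or `trdeg_lt_gen`, H83/TK/Dim): curves or points.  For `W` and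
large `n`: `hz z (W A₁^n) = hz z (W A₁^n G⁻¹) + ∑ hz (y i) (W A₁^n A₁^(-c i))`; `srf_ev` (H20/TQ/Geo): `hz z (W A₁^n) = chS T l S (W A₁^n)`, the same for `W G⁻¹`; for the curves `hz_cur` (the degrees tend to `∞`:
`dz_mul`, `dz_pow`, `dz_pos`), for the points `hz_pt`.  Subtract the equations for `W := U` and `W := 1`: `chS T l S` is quadratic (definition in H24/VP/Def), so
`T(U,G,S) = ∑_{curves} dz (y i) U`.
`T_zero`: if `dz x D = 0` for all curves `x` of `X` then `T D U V = 0` for all `U V`.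
PROOF.  `V = S` a prime divisor (`SPr X P.η S`, `trdeg = 2`): `U` is a quotient of two ample divisors, a power of which has a nonzero section on `z` (`A ^ m`, `m` large: `bpf_exists`, `bpf_res` or `srf_ev`):
`T_dec` gives `T(D,A^m,S) = ∑ dz (y i) D = 0`.  All `V`: a quotient of ample divisors, a power of which is effective up to `prin`: `fac_eff` (H24/VP), see `nn_eff`, `pos_amp` in H24/VP/Pos.
-/

set_option autoImplicit false

namespace Pool.Agent.H39.TZ

open Pool.Agent.H54.RV Pool.Agent.H83.TU Pool.Agent.H83.TK Pool.Agent.H20.TD Pool.Agent.H20.TP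
open Pool.Agent.H24.VP (RR chS)

variable {k K : Type} [Field k] [Field K] [Algebra k K] {X : Mod k K} {T : Cart X → Cart X → Cart X → ℝ}
  {l : Cart X → ℝ} {c : ℝ}

/-- the points of the zero set have dimension less than two -/
private theorem n2_tr (hX : IsVar X) {z : X.P} (htr : Algebra.trdeg k (X.kap z) = 2) {G : Cart X} {Z : Set X.P}
    (hG : HasS hX z G Z) {y : X.P} (hy : y ∈ Z) : Algebra.trdeg k (X.kap y) < 2 := by
  obtain ⟨s, hs0, hs1, rfl⟩ := hG
  obtain ⟨hzy, hn⟩ := hy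
  have h1 := trdeg_lt_gen (isVar_sub hX z) (gen_sub hX z) (x := ⟨y, hzy⟩)
    (a := s * (resD hX z G).eq ⟨y, hzy⟩) (mul_ne_zero hs0 ((resD hX z G).ne _)) hn
  rw [Pool.Agent.H83.TK.trdeg_sub hX z, htr] at h1
  exact h1

open Classical in
/-- the numbers of sections on a piece -/
private theorem n2_piece [CharZero k] [IsAlgClosed k] (h : Hyp X) {y : X.P} (htr : Algebra.trdeg k (X.kap y) < 2)
    {A : Cart X} (hA : Ample A) (m : ℕ) (U : Cart X) : ∃ n₀ : ℕ, ∀ n ≥ n₀,
      (hz h.var y (U * A ^ n * (A ^ m)⁻¹) : ℝ) - (hz h.var y (1 * A ^ n * (A ^ m)⁻¹) : ℝ) =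
        if Algebra.trdeg k (X.kap y) = 1 then (dz h.var y U : ℝ) else 0 := by
  obtain ⟨n, hn⟩ := Cardinal.lt_aleph0.1 (htr.trans (by exact_mod_cast Cardinal.natCast_lt_aleph0 (n := 2)))
  have hn2 : n < 2 := by
    rw [hn] at htr
    exact_mod_cast htr
  rcases Nat.lt_succ_iff_lt_or_eq.1 hn2 with h1 | h1
  · have h2 : n = 0 := by omega
    rw [h2, Nat.cast_zero] at hn
    refine ⟨0, fun n _ => ?_⟩
    rw [hz_pt h.var hn, hz_pt h.var hn, sub_self, if_neg]
    rw [hn]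
    exact zero_ne_one
  · rw [h1, Nat.cast_one] at hn
    obtain ⟨χ, hχ⟩ := hz_cur h.var h.amp hn
    have hd1 : 1 ≤ dz h.var y A := dz_pos h.var h.amp hn (res_ample h.var y _ hA)
    have key : ∀ W : Cart X, ∃ n₀ : ℕ, ∀ n ≥ n₀, (hz h.var y (W * A ^ n * (A ^ m)⁻¹) : ℝ) =
        dz h.var y W + (n - m) * dz h.var y A + χ := by
      intro W
      refine ⟨m + (-2 * χ - dz h.var y W).toNat + 1, fun n hn' => ?_⟩
      have h3 : dz h.var y (W * A ^ n * (A ^ m)⁻¹) = dz h.var y W + (n - m) * dz h.var y A := by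
        rw [dz_mul h.var h.amp hn, dz_mul h.var h.amp hn, dz_inv h.var h.amp hn, dz_pow h.var h.amp hn,
          dz_pow h.var h.amp hn]
        ring
      have h4 := hχ (W * A ^ n * (A ^ m)⁻¹) (by
        rw [h3]
        have h5 : ((n : ℤ) - m) * 1 ≤ ((n : ℤ) - m) * dz h.var y A :=
          mul_le_mul_of_nonneg_left hd1 (by omega)
        omega)
      rw [h3] at h4
      have h6 : ((hz h.var y (W * A ^ n * (A ^ m)⁻¹) : ℤ) : ℝ) =
          ((dz h.var y W + (n - m) * dz h.var y A + χ : ℤ) : ℝ) := by rw [h4]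
      push_cast at h6
      exact h6
    obtain ⟨n1, h3⟩ := key U
    obtain ⟨n2, h4⟩ := key 1
    refine ⟨max n1 n2, fun n hn' => ?_⟩
    rw [h3 n (le_trans (le_max_left _ _) hn'), h4 n (le_trans (le_max_right _ _) hn'), if_pos hn,
      dz_one h.var h.amp hn]
    push_cast
    ring

private theorem n2_chS (hr : RR T l c) (S V G : Cart X) :
    chS T l S V - chS T l S (V * G⁻¹) = T V G S - T G G S / 2 - T G S S / 2 := by
  unfold chS
  simp only [hr.tri.add, hr.tri.add2, hr.tri.inv, hr.tri.inv2]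
  rw [hr.tri.s12 G V S]
  ring

theorem T_dec [CharZero k] [IsAlgClosed k] (h : Hyp X) (hr : RR T l c) {z : X.P} {S : Cart X}
    (htr : Algebra.trdeg k (X.kap z) = 2) (hS : SPr X z S) {G : Cart X} {Z : Set X.P} (hG : HasS h.var z G Z) :
    ∃ (m : ℕ) (y : Fin m → X.P), (∀ i, y i ∈ Z ∧ Algebra.trdeg k (X.kap (y i)) = 1) ∧
      ∀ U, T U G S = ∑ i, (dz h.var (y i) U : ℝ) := by
  classical
  obtain ⟨A, hA⟩ := h.amp
  obtain ⟨m, y, cc, hy, hst⟩ := stz h.var hG hA
  have main : ∀ U, T U G S = ∑ i, if Algebra.trdeg k (X.kap (y i)) = 1 then (dz h.var (y i) U : ℝ) else 0 := by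
    intro U
    obtain ⟨n1, h1⟩ := hst.eq U
    obtain ⟨n2, h2⟩ := hst.eq 1
    obtain ⟨n3, h3⟩ := Pool.Agent.H20.TQ.srf_ev h hr hS U A hA
    obtain ⟨n4, h4⟩ := Pool.Agent.H20.TQ.srf_ev h hr hS 1 A hA
    obtain ⟨n5, h5⟩ := Pool.Agent.H20.TQ.srf_ev h hr hS (U * G⁻¹) A hA
    obtain ⟨n6, h6⟩ := Pool.Agent.H20.TQ.srf_ev h hr hS (1 * G⁻¹) A hA
    have h7 := fun i => n2_piece h (n2_tr h.var htr hG (hy i)) hA (cc i) U
    choose n7 h7 using h7
    obtain ⟨n, hn⟩ : ∃ n, n = n1 + n2 + n3 + n4 + n5 + n6 + Finset.univ.sup n7 := ⟨_, rfl⟩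
    have a1 := h1 n (by omega)
    have a2 := h2 n (by omega)
    have a3 := h3 n (by omega)
    have a4 := h4 n (by omega)
    have a5 := h5 n (by omega)
    have a6 := h6 n (by omega)
    have a7 : ∀ i, _ := fun i => h7 i n (by
      have := Finset.le_sup (f := n7) (Finset.mem_univ i)
      omega)
    rw [mul_right_comm U G⁻¹] at a5
    rw [mul_right_comm 1 G⁻¹] at a6
    have b1 := n2_chS hr S (U * A ^ n) G
    have b2 := n2_chS hr S (1 * A ^ n) G
    have b3 : T (U * A ^ n) G S = T U G S + T (A ^ n) G S := hr.tri.add _ _ _ _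
    have b4 : T (1 * A ^ n) G S = T (A ^ n) G S := by rw [one_mul]
    have b5 := Finset.sum_congr rfl fun i (_ : i ∈ Finset.univ) => a7 i
    rw [← b5, Finset.sum_sub_distrib]
    change (hz h.var z (U * A ^ n) : ℝ) = (hz h.var z (U * A ^ n * G⁻¹) : ℝ) + _ at a1
    change (hz h.var z (1 * A ^ n) : ℝ) = (hz h.var z (1 * A ^ n * G⁻¹) : ℝ) + _ at a2
    change (hz h.var z (U * A ^ n) : ℝ) = _ at a3
    change (hz h.var z (1 * A ^ n) : ℝ) = _ at a4
    change (hz h.var z (U * A ^ n * G⁻¹) : ℝ) = _ at a5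
    change (hz h.var z (1 * A ^ n * G⁻¹) : ℝ) = _ at a6
    linarith
  refine ⟨Fintype.card {i : Fin m // Algebra.trdeg k (X.kap (y i)) = 1},
    fun j => y ((Fintype.equivFin {i : Fin m // Algebra.trdeg k (X.kap (y i)) = 1}).symm j).1,
    fun j => ⟨hy _, ((Fintype.equivFin {i : Fin m // Algebra.trdeg k (X.kap (y i)) = 1}).symm j).2⟩, fun U => ?_⟩
  rw [main U, ← Finset.sum_filter,
    Equiv.sum_comp (Fintype.equivFin {i : Fin m // Algebra.trdeg k (X.kap (y i)) = 1}).symm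
      (fun i : {i : Fin m // Algebra.trdeg k (X.kap (y i)) = 1} => (dz h.var (y i.1) U : ℝ))]
  exact Finset.sum_subtype _ (fun i => by simp) _

theorem T_zero [CharZero k] [IsAlgClosed k] [T0Space X.P] (h : Hyp X) (hr : RR T l c) {D : Cart X}
    (hD : ∀ x : X.P, Algebra.trdeg k (X.kap x) = 1 → dz h.var x D = 0) (U V : Cart X) : T D U V = 0 := by
  -- prime divisors
  have h1 : ∀ (P : PDiv X) (S A : Cart X), SPr X P.η S → Ample A → T D A S = 0 := by
    intro P S A hS hA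
    obtain ⟨n, hn, s, hs, hx, -⟩ := res_ample h.var P.η A hA (subG h.var P.η)
    have hs0 : s ≠ 0 := left_ne_zero_of_mul hx.1
    have hG : HasS h.var P.η (A ^ n) (Zst h.var P.η (A ^ n) s) := by
      refine ⟨s, hs0, ?_, rfl⟩
      rw [map_pow]
      exact (Pool.Agent.H24.TK.sec_pow_iff _ n s).2 hs
    obtain ⟨m, y, hy, hT⟩ := T_dec h hr (trdeg_pdiv h P) hS hG
    have h2 := hT D
    rw [hr.tri.pow2, Finset.sum_eq_zero (fun i _ => by rw [hD _ (hy i).2, Int.cast_zero])] at h2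
    have hn0 : (n : ℝ) ≠ 0 := by
      have : n ≠ 0 := by omega
      exact_mod_cast this
    exact (mul_eq_zero.1 h2).resolve_left hn0
  -- effective divisors
  have h2 : ∀ A E : Cart X, Ample A → Effective E → T D A E = 0 := by
    intro A E hA hE
    obtain ⟨Ls, W, h3, h4, h5, h6⟩ := Pool.Agent.H24.VP.fac_eff h hr hE
    have h7 : T D A W = 0 := by
      rw [hr.tri.s23, hr.tri.s12]
      exact Pool.Agent.H24.VP.triv_T h hr h4 h5 D A
    rw [h6, hr.tri.add3, h7, add_zero]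
    clear h6
    induction Ls with
    | nil => rw [List.map_nil, List.prod_nil, hr.tri.one3]
    | cons p Ls ih =>
      rw [List.map_cons, List.prod_cons, hr.tri.add3, h1 p.1 p.2 A (h3 p List.mem_cons_self) hA, zero_add]
      exact ih fun q hq => h3 q (List.mem_cons_of_mem _ hq)
  -- ample divisors
  have h3 : ∀ A C : Cart X, Ample A → Ample C → T D A C = 0 := by
    intro A C hA hC
    obtain ⟨x⟩ := h.var.ne
    obtain ⟨n, hn, s, hs, hx, -⟩ := hC x
    have hs0 : s ≠ 0 := left_ne_zero_of_mul hx.1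
    have hE : Effective (C ^ n * prin X s hs0) := fun y => by
      have e : (C ^ n * prin X s hs0).eq y = s * C.eq y ^ n := by
        rw [mul_eq, pow_eq, mul_comm]
        rfl
      rw [e]
      exact hs y
    have h4 := h2 A _ hA hE
    have h5 : T D A (prin X s hs0) = 0 := by
      rw [hr.tri.s23, hr.tri.s12]
      exact Pool.Agent.H24.VP.numz_T h hr (numz_prin s hs0) D A
    rw [hr.tri.add3, hr.tri.pow3, h5, add_zero] at h4
    have hn0 : (n : ℝ) ≠ 0 := by
      have : n ≠ 0 := by omega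
      exact_mod_cast this
    exact (mul_eq_zero.1 h4).resolve_left hn0
  -- all divisors
  have h4 : ∀ G : Cart X, ∃ A B : Cart X, Ample A ∧ Ample B ∧ G = A * B⁻¹ := by
    intro G
    obtain ⟨H, hH⟩ := h.amp
    obtain ⟨m, hm, hA⟩ := ample_add h.var H G hH
    refine ⟨H ^ m * G, H ^ m, hA, ample_pow H m hm hH, ?_⟩
    rw [mul_comm (H ^ m) G, mul_inv_cancel_right]
  obtain ⟨A₁, A₂, hA₁, hA₂, rfl⟩ := h4 U
  obtain ⟨B₁, B₂, hB₁, hB₂, rfl⟩ := h4 V
  simp only [hr.tri.add2, hr.tri.add3, hr.tri.inv2, hr.tri.inv3, h3 A₁ B₁ hA₁ hB₁, h3 A₁ B₂ hA₁ hB₂,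
    h3 A₂ B₁ hA₂ hB₁, h3 A₂ B₂ hA₂ hB₂]
  ring

end Pool.Agent.H39.TZ
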