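import Pool.Agent.H39.TZ.Nef
import Pool.Agent.H83.TU.BN
import Pool.Agent.H39.TP.Qp

/-!
# [H39 TZ Bas] COROLLARY P (MP_e49dc9_ag): the numerical classes defined by curves

`exists_b`: if `NT X` (the sum of an ample divisor and a divisor which has degree `0` on all curves is ample) then `N1 X` has a basis in
which `cl D` has the coordinates `cR ν D`.
`pt_nef`: the two nef cones agree.
-/

set_option autoImplicit false

open Filter Topology

namespace Pool.Agent.H39.TZ

open Pool.Agent.H54.RV Pool.Agent.H83.TU Pool.Agent.H39.TQ Pool.Agent.H20.TD Pool.Agent.H89.ZN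
  Pool.Agent.H24.VP Pool.Agent.H36.TZ Pool.Agent.H83.DC Pool.Agent.H57.KM

variable {k K : Type} [Field k] [Field K] [Algebra k K] {X : Mod k K} {r : ℕ}
  {ν : Cart X →* Multiplicative (Fin r → ℤ)}

theorem numz_pow (D : Cart X) (hD : NumZ D) (A : Cart X) (hA : Ample A) :
    ∀ m : ℕ, Ample (A * D ^ m) ∧ Ample (A * D⁻¹ ^ m) := by
  intro m
  induction m with
  | zero => rw [pow_zero, pow_zero, mul_one]; exact ⟨hA, hA⟩
  | succ m ih =>
    refine ⟨?_, ?_⟩
    · rw [pow_succ, ← mul_assoc]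
      exact (hD _ ih.1).1
    · rw [pow_succ, ← mul_assoc]
      exact (hD _ ih.2).2

theorem numz_cl [IsAlgClosed k] [CharZero k] (hX : IsVar X) (hA : ∃ D : Cart X, Ample D) (D : Cart X) (hD : NumZ D) :
    cl D = 0 := by
  obtain ⟨A, hA⟩ := hA
  refine N1.ext' fun C => ?_
  rw [fn_zero, cl_fn]
  have h1 : ∀ m : ℕ, 0 ≤ inter A C + m * inter D C ∧ 0 ≤ inter A C - m * inter D C := by
    intro m
    obtain ⟨h2, h3⟩ := numz_pow D hD A hA m
    have h4 := ample_nonneg hX _ h2 C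
    have h5 := ample_nonneg hX _ h3 C
    rw [inter_mul hX, inter_pow hX] at h4 h5
    rw [inter_inv hX] at h5
    exact ⟨h4, by linarith⟩
  have h2 : 0 ≤ inter A C := ample_nonneg hX A hA C
  obtain ⟨h3, h4⟩ := h1 ((inter A C).toNat + 1)
  push_cast at h3 h4
  rw [Int.toNat_of_nonneg h2] at h3 h4
  have h5 : inter D C = 0 := by nlinarith
  rw [h5, Int.cast_zero]

theorem nt_numz (hX : IsVar X) [IsAlgClosed k] [CharZero k] (hN : NT X) {D : Cart X} (hD : cl D = 0) : NumZ D :=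
  fun A hA => ⟨hN A D hA hD, hN A D⁻¹ hA (by rw [cl_inv hX, hD, neg_zero])⟩

theorem cl_ci [IsAlgClosed k] [CharZero k] (hX : IsVar X) (hA : ∃ D : Cart X, Ample D) (hν : NumR ν) {D D' : Cart X}
    (h : ci ν D = ci ν D') : cl D = cl D' := by
  have h1 := numz_cl hX hA _ (ci_numz hν h)
  rw [cl_mul hX, cl_inv hX] at h1
  exact (neg_add_eq_zero.1 h1)

theorem exists_b [IsAlgClosed k] [CharZero k] (hX : IsVar X) (hA : ∃ D : Cart X, Ample D) (hν : NumR ν) (hN : NT X) :
    ∃ b : LatB X r, ∀ D, cl D = pt b (rv (ci ν D)) := by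
  classical
  obtain ⟨E, hE⟩ := exists_E hν
  have hm : ∀ D : Cart X, cl D ∈ Lat X := fun D => AddSubgroup.subset_closure ⟨D, rfl⟩
  let φ : (Fin r → ℤ) →+ Lat X :=
    { toFun := fun n => ⟨cl (pw E n), hm _⟩
      map_zero' := by
        have h1 : cl (pw E 0) = cl (1 : Cart X) := cl_ci hX hA hν (by rw [ci_pw hE, ci_one])
        exact Subtype.ext (h1.trans (cl_one hX))
      map_add' := fun m n => by
        have h1 : cl (pw E (m + n)) = cl (pw E m * pw E n) :=
          cl_ci hX hA hν (by rw [ci_pw hE, ci_mul, ci_pw hE, ci_pw hE])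
        exact Subtype.ext (h1.trans (cl_mul hX _ _)) }
  have hinj : Function.Injective φ := by
    rw [injective_iff_map_eq_zero]
    intro n hn
    have h1 : cl (pw E n) = 0 := congrArg (fun v : Lat X => (v : N1 X)) hn
    have h2 := (hν.ker _).2 (nt_numz hX hN h1)
    have h3 : ci ν (pw E n) = 0 := by
      unfold ci
      rw [h2]
      rfl
    rwa [ci_pw hE] at h3
  have hsurj : Function.Surjective φ := by
    intro v
    obtain ⟨D, hD⟩ := (mem_Lat hX (v : N1 X)).1 v.2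
    refine ⟨ci ν D, Subtype.ext ?_⟩
    show cl (pw E (ci ν D)) = v
    rw [← hD]
    exact cl_ci hX hA hν (by rw [ci_pw hE])
  let e : (Fin r → ℤ) ≃ₗ[ℤ] Lat X := (AddEquiv.ofBijective φ ⟨hinj, hsurj⟩).toIntLinearEquiv
  refine ⟨(Pi.basisFun ℤ (Fin r)).map e, fun D => ?_⟩
  have h1 : cl D = (e (ci ν D) : N1 X) := (cl_ci hX hA hν (by rw [ci_pw hE]) : cl D = cl (pw E (ci ν D)))
  have h2 : ci ν D = ∑ i, ci ν D i • (Pi.single i (1 : ℤ) : Fin r → ℤ) := by
    funext j
    rw [Finset.sum_apply]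
    simp [Pi.single_apply]
  rw [h1]
  conv_lhs => rw [h2]
  rw [map_sum, AddSubgroup.val_finsetSum]
  unfold pt
  refine Finset.sum_congr rfl fun i _ => ?_
  rw [map_smul, Module.Basis.map_apply, Pi.basisFun_apply]
  exact (Int.cast_smul_eq_zsmul ℝ _ _).symm

section

variable [IsAlgClosed k] [CharZero k] (hX : IsVar X) {b : LatB X r} (hb : ∀ D, cl D = pt b (rv (ci ν D)))

include hX hb

theorem pt_amp : ampR b = AmpR ν := by
  have := fd_of_basis hX b
  ext v
  constructor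
  · rintro ⟨m, c, D, hc, hD, h⟩
    refine ⟨m, c, D, hc, hD, (pt_bij hX b).1 ?_⟩
    rw [h, pt_sum]
    exact Finset.sum_congr rfl fun i _ => by rw [pt_smul, hb]
  · rintro ⟨m, c, D, hc, hD, rfl⟩
    refine ⟨m, c, D, hc, hD, ?_⟩
    rw [pt_sum]
    exact Finset.sum_congr rfl fun i _ => by rw [pt_smul, hb]

theorem pt_nef (v : Fin r → ℝ) : v ∈ closure (AmpR ν) ↔ pt b v ∈ NefC X := by
  have := fd_of_basis hX b
  rw [← pt_amp hX hb]
  exact cl_ampR hX b v

end

end Pool.Agent.H39.TZ
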