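import Pool.Agent.H39.TZ.Def

/-!
# [H39 TZ Def2] THEOREM Z and COROLLARY P (MP_e49dc9_ag): more definitions of the final statement

* `RatAt ν p`: near `p` the nef cone is rational polyhedral.
* `EffR ν p`: `p` is the class of an effective real divisor.
* `FamC2 ν T p`: `FamC ν p`, and `p . p` is a multiple of the class of the curves.
-/

set_option autoImplicit false

namespace Pool.Agent.H39.TZ

open Pool.Agent.H54.RV Pool.Agent.H83.TU Pool.Agent.H83.TK Pool.Agent.H39.TQ Pool.Agent.H20.TD Pool.Agent.H20.TP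

variable {k K : Type} [Field k] [Field K] [Algebra k K] {X : Mod k K} {r : ℕ}
  (ν : Cart X →* Multiplicative (Fin r → ℤ))

/-- near `p` the nef cone is defined by finitely many integral functionals -/
def RatAt (p : Fin r → ℝ) : Prop :=
  ∃ (F : Finset (Fin r → ℤ)) (e : ℝ), 0 < e ∧
    ∀ q, ‖q - p‖ < e → (q ∈ closure (AmpR ν) ↔ ∀ φ ∈ F, 0 ≤ rv φ ⬝ᵥ q)

/-- `p` is the class of a sum of effective divisors with coefficients `≥ 0` -/
def EffR (p : Fin r → ℝ) : Prop :=
  ∃ (m : ℕ) (a : Fin m → ℝ) (E : Fin m → Cart X), (∀ i, 0 ≤ a i ∧ Effective (E i)) ∧ p = ∑ i, a i • cR ν (E i)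

/-- a field `F` between `k` and `K`, algebraically closed in `K`, with `trdeg K / F = 1`, such that `p` has degree `0` on the
curve over `F` with function field `K`, and `p . p` is a multiple of the class of this curve -/
def FamC2 (T : Tri3 r) (p : Fin r → ℝ) : Prop :=
  ∃ (hX : IsVar X) (hg : ∃ g, Gen X g) (F : IntermediateField k K) (R : (Fin r → ℝ) →ₗ[ℝ] ℝ) (τ : ℝ),
    Algebra.trdeg F K = 1 ∧ Clo F ∧ (∀ D, R (cR ν D) = RF hX hg F D) ∧ R p = 0 ∧ 0 ≤ τ ∧ ∀ v, T p p v = τ * R v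

end Pool.Agent.H39.TZ
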