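import Pool.Agent.H39.TZ.Def2

/-!
# [H39 TZ Def3] THEOREM Z and COROLLARY P (MP_e49dc9_ag): the forms as plain functions

The definitions of the final statement, with `T` and `l` as plain functions on `ℝ ^ r`.

* `HilbF ν T l c`: `T`, `l`, `c` give the Hilbert polynomials.
* `SurF ν T p`: a family of surfaces `F i` with `p . p . F 0 = p . F 0 . F 0 = 0`.
* `SqI ν T p`: `p . p` is a multiple of an integral class.
-/

set_option autoImplicit false

namespace Pool.Agent.H39.TZ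

open Pool.Agent.H54.RV Pool.Agent.H83.TU Pool.Agent.H83.TK Pool.Agent.H39.TQ Pool.Agent.H20.TD Pool.Agent.H20.TP

variable {k K : Type} [Field k] [Field K] [Algebra k K] {X : Mod k K} {r : ℕ}
  (ν : Cart X →* Multiplicative (Fin r → ℤ))

/-- `T` is symmetric, trilinear, with integral values on the classes of divisors, `l` is linear, and positive on the ample
classes; for every `W` and every ample `A` and all large `n`: `dim H⁰(U) = T(u,u,u) / 6 + l(u) + c`, where `U = W + n A` and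
`u` is the class of `U` -/
structure HilbF (T : (Fin r → ℝ) → (Fin r → ℝ) → (Fin r → ℝ) → ℝ) (l : (Fin r → ℝ) → ℝ) (c : ℝ) : Prop where
  s12 : ∀ u v w, T u v w = T v u w
  s23 : ∀ u v w, T u v w = T u w v
  add : ∀ u u' v w, T (u + u') v w = T u v w + T u' v w
  smul : ∀ (a : ℝ) u v w, T (a • u) v w = a * T u v w
  ladd : ∀ u v, l (u + v) = l u + l v
  lsmul : ∀ (a : ℝ) u, l (a • u) = a * l u
  int : ∀ U V W, ∃ z : ℤ, T (cR ν U) (cR ν V) (cR ν W) = z
  pos : ∀ A, Ample A → 0 < l (cR ν A)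
  ev : ∀ W A, Ample A → ∃ n₀ : ℕ, ∀ n ≥ n₀, (h0 (W * A ^ n) 1 : ℝ) =
    T (cR ν (W * A ^ n)) (cR ν (W * A ^ n)) (cR ν (W * A ^ n)) / 6 + l (cR ν (W * A ^ n)) + c

/-- infinitely many prime divisors `F 0, F 1, ..` with the same intersection numbers and `p . p . F 0 = 0`,
`p . F 0 . F 0 = 0` -/
def SurF (T : (Fin r → ℝ) → (Fin r → ℝ) → (Fin r → ℝ) → ℝ) (p : Fin r → ℝ) : Prop :=
  ∃ F : ℕ → Cart X, (∃ P : ℕ → PDiv X, (∀ i j, (P i).η = (P j).η → i = j) ∧ ∀ i, SPr X (P i).η (F i)) ∧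
    (∀ i, T (cR ν (F i)) = T (cR ν (F 0))) ∧ T p p (cR ν (F 0)) = 0 ∧ T p (cR ν (F 0)) (cR ν (F 0)) = 0

/-- `p . p` is a multiple of an integral class -/
def SqI (T : (Fin r → ℝ) → (Fin r → ℝ) → (Fin r → ℝ) → ℝ) (p : Fin r → ℝ) : Prop :=
  ∃ (φ : (Fin r → ℝ) → ℝ) (τ : ℝ), (∀ D, ∃ z : ℤ, φ (cR ν D) = z) ∧ ∀ v, T p p v = τ * φ v

end Pool.Agent.H39.TZ
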