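import Pool.Agent.H39.TZ.Pf2
import Pool.Agent.H39.TZ.Def3
import Pool.Agent.H32.TN.Int

/-!
# [H39 TZ Pf3] THEOREM Z and COROLLARY P (MP_e49dc9_ag): the final statement
-/

set_option autoImplicit false

namespace Pool.Agent.H39.TZ

open AlgebraicGeometry Pool.Agent.H57.KM
open Pool.Agent.H54.RV Pool.Agent.H83.TU Pool.Agent.H83.TK Pool.Agent.H20.TD Pool.Agent.H20.TP
open Pool.Agent.H24.VP (RR chS)
open Pool.Agent.H39.TQ Pool.Agent.H89.ZN Pool.Agent.H36.TZ Pool.Agent.H83.DC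

section gen

variable {k K : Type} [Field k] [Field K] [Algebra k K] {X : Mod k K} {r : ℕ}
  {ν : Cart X →* Multiplicative (Fin r → ℤ)} {TR : Tri3 r} {l : (Fin r → ℝ) →ₗ[ℝ] ℝ} {c : ℝ} {p : Fin r → ℝ}

/-- the trilinear form as a plain function -/
def pl (TR : Tri3 r) : (Fin r → ℝ) → (Fin r → ℝ) → (Fin r → ℝ) → ℝ := fun u v w => TR u v w

theorem hilbF_of (h : HilbR ν TR l c) : HilbF ν (pl TR) l c where
  s12 := h.s12
  s23 := h.s23
  add u u' v w := by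
    unfold pl
    rw [map_add, LinearMap.add_apply, LinearMap.add_apply]
  smul a u v w := by
    unfold pl
    rw [map_smul, LinearMap.smul_apply, LinearMap.smul_apply, smul_eq_mul]
  ladd := map_add l
  lsmul a u := by rw [map_smul, smul_eq_mul]
  int := h.int
  pos := h.pos
  ev := h.ev

theorem surF_iff : SurF ν (pl TR) p ↔ FamB ν TR p := by
  constructor
  · rintro ⟨F, h1, h2, h3, h4⟩
    exact ⟨F, h1, fun i u v => congrFun (congrFun (h2 i) u) v, h3, h4⟩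
  · rintro ⟨F, h1, h2, h3, h4⟩
    exact ⟨F, h1, fun i => funext fun u => funext fun v => h2 i u v, h3, h4⟩

theorem pl_zero : pl TR p p = 0 ↔ TR p p = 0 := by
  constructor
  · intro h
    exact LinearMap.ext fun v => congrFun h v
  · intro h
    funext v
    show TR p p v = 0
    rw [h, LinearMap.zero_apply]

theorem sqI_of (h : SqI ν (pl TR) p) : Pool.Agent.H32.TN.SqInt ν TR p := by
  obtain ⟨φ, τ, h1, h2⟩ := h
  have h2' : ∀ v, TR p p v = τ * φ v := h2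
  by_cases h0 : τ = 0
  · refine ⟨0, 0, fun D => ⟨0, by simp⟩, fun v => ?_⟩
    rw [h2' v, h0, zero_mul, zero_mul]
  · have h3 : ∀ v, (τ⁻¹ • TR p p) v = φ v := fun v => by
      rw [LinearMap.smul_apply, h2' v, smul_eq_mul, ← mul_assoc, inv_mul_cancel₀ h0, one_mul]
    refine ⟨τ⁻¹ • TR p p, τ, fun D => ?_, fun v => ?_⟩
    · rw [h3]
      exact h1 D
    · rw [h3]
      exact h2' v

end gen

variable {Y : Scheme.{0}} [IsIntegral Y] (f : Y ⟶ Spec (.of ℂ)) [IsProper f]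

/-- **THEOREM Z and COROLLARY P** -/
theorem zpf [T0Space (mdl f).P] (h : Hyp (mdl f)) {r : ℕ} {ν : Cart (mdl f) →* Multiplicative (Fin r → ℤ)}
    (hν : NumR ν) (hH : HypH (mdl f)) :
    ∃ (T : (Fin r → ℝ) → (Fin r → ℝ) → (Fin r → ℝ) → ℝ) (l : (Fin r → ℝ) → ℝ) (c : ℝ), HilbF ν T l c ∧
      (∀ p ∈ closure (AmpR ν), 0 < l p →
        (0 < T p p p ∧ RatAt ν p ∧ EffR ν p) ∨
        (T p p p = 0 ∧ SurF ν T p ∧ (T p p = 0 ∨ EffR ν p ∨ ¬ SqI ν T p)) ∨
        (T p p = 0 ∧ FamC ν p)) ∧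
      ((∀ p ∈ closure (AmpR ν), p ≠ 0 → T p p p = 0 →
          0 < l p ∧ ¬ SurF ν T p ∧ ¬ (T p p = 0 ∧ FamC ν p)) →
        NefC (mdl f) ⊆ EffC (mdl f) ∧ RatPolyC (NefC (mdl f)) ∧ Q1Y f) := by
  obtain ⟨T₀, l₀, c, T, l, hT₀, hT, hl, hR⟩ := exists_hilbR h hν hH
  have hr := hT₀.rr
  obtain ⟨b, hb'⟩ := exists_b h.var h.amp hν (nt_of h hr hν hT (nak_r h hr hν hT))
  have hZ := fun (p : Fin r → ℝ) (hp : p ∈ closure (AmpR ν)) (hlp : 0 < l p) =>
    Pool.Agent.H32.TN.z_bc h hν hr hT hl hp hlp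
  have hbig : ∀ p ∈ closure (AmpR ν), 0 < T p p p → EffR ν p := fun p hp h3 =>
    Pool.Agent.H32.TN.effr_of_big h hr hν hT hp h3
  refine ⟨pl T, l, c, hilbF_of hR, fun p hp hlp => ?_, fun hH' => ?_⟩
  · rcases (cube_nn h hr hT hp).lt_or_eq with h3 | h3
    · exact Or.inl ⟨h3, loc_poly h hr hν hT hp h3, hbig p hp h3⟩
    right
    rcases hZ p hp hlp with h4 | h4 | ⟨h4, h5⟩
    · rw [← h3] at h4
      exact absurd h4 (lt_irrefl 0)
    · refine Or.inl ⟨h3.symm, surF_iff.2 h4, ?_⟩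
      by_cases h5 : T p p = 0
      · exact Or.inl (pl_zero.2 h5)
      · rcases Pool.Agent.H32.TN.z_irr h hν hr hT hl hp hlp h5 with h6 | ⟨-, -, h6⟩
        · exact Or.inr (Or.inl h6)
        · exact Or.inr (Or.inr fun h7 => h6 (sqI_of h7))
    · exact Or.inr ⟨pl_zero.2 h4, h5⟩
  · have hb : ∀ p ∈ closure (AmpR ν), p ≠ 0 → 0 < T p p p := by
      intro p hp h0
      rcases (cube_nn h hr hT hp).lt_or_eq with h3 | h3
      · exact h3
      · obtain ⟨h4, h5, h6⟩ := hH' p hp h0 h3.symm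
        rcases hZ p hp h4 with h7 | h7 | h7
        · exact h7
        · exact absurd (surF_iff.2 h7) h5
        · exact absurd ⟨pl_zero.2 h7.1, h7.2⟩ h6
    have hNE : NefC (mdl f) ⊆ EffC (mdl f) := nefc_effc h.var hb' fun p hp => by
      by_cases h0 : p = 0
      · rw [h0]
        exact effr_zero
      · exact hbig p hp (hb p hp h0)
    obtain ⟨F, hF⟩ := poly h hr hν hT hb
    obtain ⟨h1, -, h2⟩ := Pool.Agent.H39.TP.q1_poly f h.amp b F (by
      rw [pt_amp h.var hb']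
      exact hF) fun D hD => hNE hD
    exact ⟨hNE, h1, h2⟩

end Pool.Agent.H39.TZ
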