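import Pool.Agent.H39.TZ.Nef

/-!
# [H39 TZ Asm] THEOREM Z (MP_e49dc9_ag): from sums `∑ y i E i` to classes in `ℝ ^ r`
-/

set_option autoImplicit false

open Filter Topology

namespace Pool.Agent.H39.TZ

open Pool.Agent.H54.RV Pool.Agent.H83.TU Pool.Agent.H83.TK Pool.Agent.H39.TQ Pool.Agent.H20.TD Pool.Agent.H20.TP
  Pool.Agent.H89.ZN Pool.Agent.H24.VP Pool.Agent.H36.TZ

variable {k K : Type} [Field k] [Field K] [Algebra k K] {X : Mod k K} {r : ℕ}
  {ν : Cart X →* Multiplicative (Fin r → ℤ)}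

/-- the forms on the real classes -/
theorem exists_hilbR [IsAlgClosed k] [CharZero k] [T0Space X.P] (h : Hyp X) (hν : NumR ν) (hH : HypH X) :
    ∃ (T₀ : Cart X → Cart X → Cart X → ℤ) (l₀ : Cart X → ℝ) (c : ℝ) (T : Tri3 r) (l : (Fin r → ℝ) →ₗ[ℝ] ℝ),
      HilbT T₀ l₀ c ∧ (∀ U V W, T (cR ν U) (cR ν V) (cR ν W) = T₀ U V W) ∧ (∀ D, l (cR ν D) = l₀ D) ∧
        HilbR ν T l c := by
  obtain ⟨T₀, l₀, c, hT₀⟩ := exists_hilb h hH
  obtain ⟨T, hT⟩ := exists_TR h hT₀.rr hν
  obtain ⟨l, hl⟩ := exists_ext hν (f := l₀) hT₀.ladd fun D hD =>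
    nz_zero hT₀.ladd (fun A hA => (hT₀.pos A hA).le) h.amp hD
  refine ⟨T₀, l₀, c, T, l, hT₀, hT, hl, ⟨fun u v w => ?_, fun u v w => ?_, fun U V W => ⟨T₀ U V W, hT U V W⟩,
    fun A hA => ?_, fun W A hA => ?_⟩⟩
  · have h1 : T = T.flip := ext_uniq hν fun U => ext_uniq hν fun V => ext_uniq hν fun W => by
      rw [hT, LinearMap.flip_apply, hT, hT₀.s12]
    exact LinearMap.congr_fun (LinearMap.congr_fun (LinearMap.congr_fun h1 u) v) w
  · have h1 : (T.flip v).flip w = (T.flip w).flip v := ext_uniq hν fun U => by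
      have h2 : T (Pool.Agent.H20.TP.cR ν U) = (T (Pool.Agent.H20.TP.cR ν U)).flip :=
        ext_uniq hν fun V => ext_uniq hν fun W => by rw [hT, LinearMap.flip_apply, hT, hT₀.s23]
      exact LinearMap.congr_fun (LinearMap.congr_fun h2 v) w
    exact LinearMap.congr_fun h1 u
  · rw [hl]
    exact hT₀.pos A hA
  · obtain ⟨n₀, hn⟩ := hT₀.ev W A hA
    refine ⟨n₀, fun n hn' => ?_⟩
    rw [hT, hl]
    exact hn n hn'

section forms

variable {T₀ : Cart X → Cart X → Cart X → ℝ} {T : Tri3 r} (hT : ∀ U V W, T (cR ν U) (cR ν V) (cR ν W) = T₀ U V W)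
  {E : Fin r → Cart X} (hE : ∀ i, ci ν (E i) = Pi.single i 1)

include hE in
theorem p_eq (p : Fin r → ℝ) : p = ∑ i, p i • cR ν (E i) := by
  funext j
  rw [Finset.sum_apply]
  simp [Pool.Agent.H20.TP.cR, hE, rv_single, Pi.single_apply]

include hT hE

theorem T_pT (p : Fin r → ℝ) (U V : Cart X) : T p (cR ν U) (cR ν V) = pT T₀ E p U V := by
  conv_lhs => rw [p_eq hE p]
  rw [map_sum, LinearMap.sum_apply, LinearMap.sum_apply]
  unfold pT
  refine Finset.sum_congr rfl fun i _ => ?_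
  rw [map_smul, LinearMap.smul_apply, LinearMap.smul_apply, hT, smul_eq_mul]

theorem T_pz (p : Fin r → ℝ) (U : Cart X) : T p p (cR ν U) = pz T₀ E p U := by
  have h1 : T p p (cR ν U) = ∑ i, p i * T p (cR ν (E i)) (cR ν U) := by
    conv_lhs =>
      arg 1
      arg 2
      rw [p_eq hE p]
    rw [map_sum, LinearMap.sum_apply]
    exact Finset.sum_congr rfl fun i _ => by rw [map_smul, LinearMap.smul_apply, smul_eq_mul]
  rw [h1]
  unfold pz
  exact Finset.sum_congr rfl fun i _ => by rw [T_pT hT hE]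

theorem T_p3 (p : Fin r → ℝ) : T p p p = p3 T₀ E p := by
  have h1 : T p p p = ∑ i, p i * T p p (cR ν (E i)) := by
    conv_lhs =>
      arg 2
      rw [p_eq hE p]
    rw [map_sum]
    exact Finset.sum_congr rfl fun i _ => by rw [map_smul, smul_eq_mul]
  rw [h1]
  unfold p3
  exact Finset.sum_congr rfl fun i _ => by rw [T_pz hT hE]

end forms

theorem l_dl {l₀ : Cart X → ℝ} {l : (Fin r → ℝ) →ₗ[ℝ] ℝ} (hl : ∀ D, l (cR ν D) = l₀ D) {E : Fin r → Cart X}
    (hE : ∀ i, ci ν (E i) = Pi.single i 1) (p : Fin r → ℝ) : l p = dl l₀ E p := by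
  conv_lhs => rw [p_eq hE p]
  rw [map_sum]
  unfold dl
  exact Finset.sum_congr rfl fun i _ => by rw [map_smul, hl, smul_eq_mul]

/-- the cube of a nef class is not negative -/
theorem cube_nn [CharZero k] [T0Space X.P] (h : Hyp X) {T₀ : Cart X → Cart X → Cart X → ℝ} {l₀ : Cart X → ℝ} {c : ℝ}
    (hr : RR T₀ l₀ c) {T : Tri3 r} (hT : ∀ U V W, T (cR ν U) (cR ν V) (cR ν W) = T₀ U V W) {p : Fin r → ℝ}
    (hp : p ∈ closure (AmpR ν)) : 0 ≤ T p p p := by
  have hc : Continuous fun p : Fin r → ℝ => T p p p := by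
    have h2 : ∀ p : Fin r → ℝ, T p p p = ∑ i, ∑ j, ∑ l, p i * p j * p l * T (Pi.single i 1) (Pi.single j 1) (Pi.single l 1) := by
      intro p
      have e : p = ∑ i, p i • (Pi.single i (1 : ℝ) : Fin r → ℝ) := by
        funext j
        rw [Finset.sum_apply]
        simp [Pi.single_apply]
      have e1 : ∀ u v : Fin r → ℝ, T p u v = ∑ i, p i * T (Pi.single i 1) u v := fun u v => by
        conv_lhs => rw [e]
        rw [map_sum, LinearMap.sum_apply, LinearMap.sum_apply]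
        exact Finset.sum_congr rfl fun i _ => by rw [map_smul, LinearMap.smul_apply, LinearMap.smul_apply, smul_eq_mul]
      have e2 : ∀ u v : Fin r → ℝ, T u p v = ∑ j, p j * T u (Pi.single j 1) v := fun u v => by
        conv_lhs => rw [e]
        rw [map_sum, LinearMap.sum_apply]
        exact Finset.sum_congr rfl fun i _ => by rw [map_smul, LinearMap.smul_apply, smul_eq_mul]
      have e3 : ∀ u v : Fin r → ℝ, T u v p = ∑ l, p l * T u v (Pi.single l 1) := fun u v => by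
        conv_lhs => rw [e]
        rw [map_sum]
        exact Finset.sum_congr rfl fun i _ => by rw [map_smul, smul_eq_mul]
      rw [e1]
      refine Finset.sum_congr rfl fun i _ => ?_
      rw [e2, Finset.mul_sum]
      refine Finset.sum_congr rfl fun j _ => ?_
      rw [e3, Finset.mul_sum, Finset.mul_sum]
      exact Finset.sum_congr rfl fun l _ => by ring
    simp only [h2]
    fun_prop
  refine closure_minimal (s := AmpR ν) (t := {p | 0 ≤ T p p p}) ?_ (isClosed_le continuous_const hc) hp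
  rintro v ⟨m, c, D, hc', hD, rfl⟩
  show 0 ≤ T _ _ _
  have h1 : ∀ i j l, 0 < T (rv (ci ν (D i))) (rv (ci ν (D j))) (rv (ci ν (D l))) := fun i j l => by
    have h2 : T (rv (ci ν (D i))) (rv (ci ν (D j))) (rv (ci ν (D l))) = T₀ (D i) (D j) (D l) := hT _ _ _
    rw [h2]
    exact pos_amp h hr (hD i) (hD j) (hD l)
  simp only [map_sum, LinearMap.sum_apply, map_smul, LinearMap.smul_apply, smul_eq_mul]
  exact Finset.sum_nonneg fun i _ => mul_nonneg (hc' i).le (Finset.sum_nonneg fun j _ => mul_nonneg (hc' j).le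
    (Finset.sum_nonneg fun l _ => mul_nonneg (hc' l).le (h1 l j i).le))

/-- **THEOREM Z** in coordinates, from the statement for sums -/
theorem z_co [IsAlgClosed k] [CharZero k] [T0Space X.P] (h : Hyp X) (hν : NumR ν)
    {T₀ : Cart X → Cart X → Cart X → ℝ} {l₀ : Cart X → ℝ} {c : ℝ} (hr : RR T₀ l₀ c) {T : Tri3 r}
    (hT : ∀ U V W, T (cR ν U) (cR ν V) (cR ν W) = T₀ U V W) {l : (Fin r → ℝ) →ₗ[ℝ] ℝ} (hl : ∀ D, l (cR ν D) = l₀ D)
    (hz : ∀ (m : ℕ) (A : Cart X) (E : Fin m → Cart X) (y : Fin m → ℝ), Ample A → Nfr A E y → p3 T₀ E y = 0 →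
      0 < dl l₀ E y → Pen T₀ E y ∨ Cur h.var h.gen E y)
    {p : Fin r → ℝ} (hp : p ∈ closure (AmpR ν)) (hlp : 0 < l p) : 0 < T p p p ∨ FamB ν T p ∨ FamC ν p := by
  obtain ⟨E, hE⟩ := exists_E hν
  rcases (cube_nn h hr hT hp).lt_or_eq with h3 | h3
  · exact Or.inl h3
  right
  obtain ⟨A, hA⟩ := h.amp
  rcases hz r A E p hA (nfr_of h.var hν hA hE hp) (by rw [← T_p3 hT hE]; exact h3.symm)
    (by rw [← l_dl hl hE]; exact hlp) with ⟨C, hC, h1, h2⟩ | ⟨F, hF, hcl, h1⟩
  · left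
    refine ⟨C, hC.prm, fun i u v => ?_, ?_, ?_⟩
    · have h4 : T (cR ν (C i)) = T (cR ν (C 0)) := ext_uniq hν fun U => ext_uniq hν fun V => by
        rw [hT, hT, hC.num]
      rw [h4]
    · rw [T_pz hT hE, h1]
    · rw [T_pT hT hE, h2]
  · right
    have hRF := rfun_rf h.var h.gen (Pool.Agent.H83.TU.uf_all h.var) F hF
    obtain ⟨R, hR⟩ := exists_ext hν (f := fun D => (RF h.var h.gen F D : ℝ))
      (fun U V => by exact_mod_cast hRF.add U V) fun D hD => by
        have := rfun_numz h _ hRF D hD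
        exact_mod_cast this
    refine ⟨h.var, h.gen, F, R, hF, hcl, hR, ?_⟩
    rw [l_dl hR hE]
    exact h1

end Pool.Agent.H39.TZ
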