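import Pool.Agent.H20.TP.Def
import Pool.Agent.H89.ZN.Def
import Pool.Agent.H39.TQ.Fin

/-!
# [H39 TZ Def] THEOREM Z and COROLLARY P (MP_e49dc9_ag): the definitions of the final statement

`ν` maps the divisors onto `ℤ ^ r`, with kernel the numerically trivial ones (`NumR ν`); `cR ν D`: the class of `D` in `ℝ ^ r`;
`AmpR ν`: the ample cone.

* `HilbR ν T l c`: `T`, `l`, `c` give the Hilbert polynomials.
* `FamB ν T p`: a family of surfaces `F i` with `p . p . F 0 = p . F 0 . F 0 = 0`.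
* `FamC ν p`: a covering family of curves `C` with `p . C = 0`.
-/

set_option autoImplicit false

namespace Pool.Agent.H39.TZ

open Pool.Agent.H54.RV Pool.Agent.H83.TU Pool.Agent.H83.TK Pool.Agent.H39.TQ Pool.Agent.H20.TD Pool.Agent.H20.TP

variable {k K : Type} [Field k] [Field K] [Algebra k K] {X : Mod k K} {r : ℕ}
  (ν : Cart X →* Multiplicative (Fin r → ℤ))

/-- `T` is symmetric, trilinear, with integral values on the classes of divisors, `l` is linear, and positive on the ample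
classes; for every `W` and every ample `A` and all large `n`: `dim H⁰(U) = T(u,u,u) / 6 + l(u) + c`, where `U = W + n A` and
`u` is the class of `U` -/
structure HilbR (T : Tri3 r) (l : (Fin r → ℝ) →ₗ[ℝ] ℝ) (c : ℝ) : Prop where
  s12 : ∀ u v w, T u v w = T v u w
  s23 : ∀ u v w, T u v w = T u w v
  int : ∀ U V W, ∃ z : ℤ, T (cR ν U) (cR ν V) (cR ν W) = z
  pos : ∀ A, Ample A → 0 < l (cR ν A)
  ev : ∀ W A, Ample A → ∃ n₀ : ℕ, ∀ n ≥ n₀, (h0 (W * A ^ n) 1 : ℝ) =
    T (cR ν (W * A ^ n)) (cR ν (W * A ^ n)) (cR ν (W * A ^ n)) / 6 + l (cR ν (W * A ^ n)) + c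

/-- infinitely many prime divisors `F 0, F 1, ..` with the same intersection numbers and `p . p . F 0 = 0`,
`p . F 0 . F 0 = 0` -/
def FamB (T : Tri3 r) (p : Fin r → ℝ) : Prop :=
  ∃ F : ℕ → Cart X, (∃ P : ℕ → PDiv X, (∀ i j, (P i).η = (P j).η → i = j) ∧ ∀ i, SPr X (P i).η (F i)) ∧
    (∀ i u v, T (cR ν (F i)) u v = T (cR ν (F 0)) u v) ∧ T p p (cR ν (F 0)) = 0 ∧
    T p (cR ν (F 0)) (cR ν (F 0)) = 0

/-- a field `F` between `k` and `K`, algebraically closed in `K`, with `trdeg K / F = 1`, such that `p` has degree `0` on the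
curve over `F` with function field `K` -/
def FamC (p : Fin r → ℝ) : Prop :=
  ∃ (hX : IsVar X) (hg : ∃ g, Gen X g) (F : IntermediateField k K) (R : (Fin r → ℝ) →ₗ[ℝ] ℝ),
    Algebra.trdeg F K = 1 ∧ Clo F ∧ (∀ D, R (cR ν D) = RF hX hg F D) ∧ R p = 0

end Pool.Agent.H39.TZ
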