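import Pool.Agent.H20.TD.Cone

/-!
# [H39 TZ LocA] COROLLARY P (MP_e49dc9_ag): closed cones which are rational polyhedral near a point

`C`: an open convex cone, `p` a point of the closure.  If near `p` the points of the closure are in `C` or killed by one of finitely many
integral functionals, positive at `a`, then near `p` the closure is defined by finitely many integral functionals.
-/

set_option autoImplicit false

namespace Pool.Agent.H39.TZ

open Pool.Agent.H20.TD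

variable {r : ℕ}

theorem loc_of {C : Set (Fin r → ℝ)} {a : Fin r → ℤ} {L : (Fin r → ℝ) →ₗ[ℝ] ℝ} (hd : Dir C (rv a) L)
    {p : Fin r → ℝ} (hp : p ∈ closure C) {η : ℝ} (hη : 0 < η)
    {F : Set (Fin r → ℤ)} (hF : F.Finite) (hpos : ∀ φ ∈ F, 0 < rv φ ⬝ᵥ rv a)
    (hloc : ∀ q ∈ closure C, ‖q - p‖ < η → q ∈ C ∨ ∃ φ ∈ F, rv φ ⬝ᵥ q = 0) :
    ∃ (F' : Finset (Fin r → ℤ)) (e : ℝ), 0 < e ∧
      ∀ q, ‖q - p‖ < e → (q ∈ closure C ↔ ∀ φ ∈ F', 0 ≤ rv φ ⬝ᵥ q) := by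
  classical
  obtain ⟨s, hs⟩ : ∃ s, s = thf C (rv a) := ⟨_, rfl⟩
  by_cases hpC : p ∈ C
  · obtain ⟨e, he, hb⟩ := Metric.isOpen_iff.1 hd.op _ hpC
    refine ⟨∅, e, he, fun q hq => ⟨fun _ φ hφ => absurd hφ (Finset.notMem_empty φ), fun _ => subset_closure (hb ?_)⟩⟩
    rwa [Metric.mem_ball, dist_eq_norm]
  have hsub : Sub s := by
    rw [hs]
    exact hd.sub
  have hsp : s p = 0 := by
    have h1 : s p ≤ 0 := by
      rw [hs, hd.le_iff, zero_smul, add_zero]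
      exact hp
    refine le_antisymm h1 ?_
    by_contra h2
    push Not at h2
    refine hpC ?_
    rw [hs] at h2
    have h3 := (hd.lt_iff p 0).1 h2
    rwa [zero_smul, add_zero] at h3
  have hdot : ∀ φ ψ : Fin r → ℤ, ∃ z : ℤ, rv φ ⬝ᵥ rv ψ = z := fun φ ψ => ⟨∑ i, φ i * ψ i, by
    unfold dotProduct
    push_cast
    rfl⟩
  choose n hn using fun φ : Fin r → ℤ => hdot φ a
  obtain ⟨κ, hκ⟩ : ∃ κ : ℤ, κ = ∏ φ ∈ hF.toFinset, n φ := ⟨_, rfl⟩
  have hnpos : ∀ φ ∈ hF.toFinset, 0 < n φ := by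
    intro φ hφ
    have h1 := hpos φ (hF.mem_toFinset.1 hφ)
    rw [hn] at h1
    exact_mod_cast h1
  have hκ0 : 0 < κ := by
    rw [hκ]
    exact Finset.prod_pos hnpos
  have hκR : (0 : ℝ) < κ := by exact_mod_cast hκ0
  have hscont : Continuous s := sub_cont hsub
  -- the open cone
  obtain ⟨Ω, hΩ⟩ : ∃ Ω : Set (Fin r → ℝ), Ω = ⋃ c ∈ Set.Ioi (0 : ℝ), {v | ‖c • (v + s v • rv a) - p‖ < η} := ⟨_, rfl⟩
  have hΩo : IsOpen Ω := by
    rw [hΩ]
    refine isOpen_biUnion fun c _ => isOpen_lt ?_ continuous_const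
    fun_prop
  have hΩc : ∀ c : ℝ, 0 < c → ∀ x ∈ Ω, c • x ∈ Ω := by
    intro c hc x hx
    rw [hΩ, Set.mem_iUnion₂] at hx ⊢
    obtain ⟨d, hd0, hd1⟩ := hx
    have hd0' : 0 < d := hd0
    refine ⟨d / c, div_pos hd0' hc, ?_⟩
    show ‖(d / c) • (c • x + s (c • x) • rv a) - p‖ < η
    have h1 : (d / c) • (c • x + s (c • x) • rv a) = d • (x + s x • rv a) := by
      rw [hsub.smul c hc.le, mul_smul, ← smul_add, smul_smul, div_mul_cancel₀ _ hc.ne']
    rw [h1]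
    exact hd1
  have hpΩ : p ∈ Ω := by
    rw [hΩ, Set.mem_iUnion₂]
    refine ⟨1, Set.mem_Ioi.2 one_pos, ?_⟩
    show ‖(1 : ℝ) • (p + s p • rv a) - p‖ < η
    rw [hsp, zero_smul, add_zero, one_smul, sub_self, norm_zero]
    exact hη
  have hint : ∀ d : Fin r → ℤ, rv d ∈ Ω → ∃ z : ℤ, (κ : ℝ) * s (rv d) = z := by
    intro d hdΩ
    rw [hΩ, Set.mem_iUnion₂] at hdΩ
    obtain ⟨c, hc, h1⟩ := hdΩ
    have hc' : 0 < c := hc
    have h2 : rv d + s (rv d) • rv a ∈ closure C := by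
      rw [hs]
      exact (hd.le_iff _ _).1 le_rfl
    have h3 : rv d + s (rv d) • rv a ∉ C := by
      intro h3
      rw [hs] at h3
      exact lt_irrefl _ ((hd.lt_iff _ _).2 h3)
    have h4 : c • (rv d + s (rv d) • rv a) ∈ closure C :=
      map_mem_closure (f := fun v => c • v) (by fun_prop) h2 fun v hv => hd.smul c hc' v hv
    obtain ⟨φ, hφ, h5⟩ : ∃ φ ∈ F, rv φ ⬝ᵥ (rv d + s (rv d) • rv a) = 0 := by
      rcases hloc _ h4 h1 with h5 | ⟨φ, hφ, h5⟩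
      · refine absurd ?_ h3
        have h6 := hd.smul c⁻¹ (inv_pos.2 hc') _ h5
        rwa [smul_smul, inv_mul_cancel₀ hc'.ne', one_smul] at h6
      · refine ⟨φ, hφ, ?_⟩
        rw [dotProduct_smul, smul_eq_mul] at h5
        exact (mul_eq_zero.1 h5).resolve_left hc'.ne'
    obtain ⟨w, hw⟩ : ∃ w : ℤ, κ = n φ * w := by
      rw [hκ]
      exact Finset.dvd_prod_of_mem n (hF.mem_toFinset.2 hφ)
    obtain ⟨e, he⟩ := hdot φ d
    rw [dotProduct_add, dotProduct_smul, smul_eq_mul, he, hn] at h5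
    refine ⟨-(w * e), ?_⟩
    rw [hw]
    push_cast
    have h6 : s (rv d) * n φ = -e := by linarith
    calc (n φ : ℝ) * w * s (rv d) = w * (s (rv d) * n φ) := by ring
      _ = _ := by rw [h6]; ring
  have hmax := cover hsub hκR hΩo hΩc hint
  have hfin := phi_fin hκR s
  have hlift : ∀ φ ∈ Phi (κ : ℝ) s, ∃ d : Fin r → ℤ, rv d = -((κ : ℝ) • φ) := by
    intro φ hφ
    choose g hg using hφ.1
    refine ⟨fun i => - g i, funext fun i => ?_⟩
    change ((- g i : ℤ) : ℝ) = -(κ * φ i)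
    rw [hg, Int.cast_neg]
  choose! ψ hψ using hlift
  obtain ⟨e, he, hb⟩ := Metric.isOpen_iff.1 hΩo _ hpΩ
  refine ⟨hfin.toFinset.image ψ, e, he, fun v hve => ⟨fun hv φ hφ => ?_, fun hv => ?_⟩⟩
  · obtain ⟨θ, hθ, rfl⟩ := Finset.mem_image.1 hφ
    have hθ' := hfin.mem_toFinset.1 hθ
    rw [hψ θ hθ', neg_dotProduct, smul_dotProduct, smul_eq_mul]
    have h1 := hθ'.2 v
    have h2 : s v ≤ 0 := by
      rw [hs, hd.le_iff, zero_smul, add_zero]
      exact hv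
    nlinarith
  · obtain ⟨θ, hθ, h1⟩ := hmax v (hb (by rwa [Metric.mem_ball, dist_eq_norm]))
    have h2 := hv (ψ θ) (Finset.mem_image_of_mem _ (hfin.mem_toFinset.2 hθ))
    rw [hψ θ hθ, neg_dotProduct, smul_dotProduct, smul_eq_mul, h1] at h2
    have h3 : s v ≤ 0 := by nlinarith
    rw [hs, hd.le_iff, zero_smul, add_zero] at h3
    exact h3

end Pool.Agent.H39.TZ
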