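import Pool.Agent.H20.TP.Loc
import Pool.Agent.H24.VP.Pos
import Pool.Agent.H39.TZ.LocA
import Pool.Agent.H39.TZ.Def2

/-!
# [H39 TZ LocP] COROLLARY P (MP_e49dc9_ag): the nef cone is rational polyhedral near the classes with positive cube
-/

set_option autoImplicit false

namespace Pool.Agent.H39.TZ

open Pool.Agent.H54.RV Pool.Agent.H83.TU Pool.Agent.H83.TK Pool.Agent.H20.TD Pool.Agent.H20.TP Pool.Agent.H39.TK
open Pool.Agent.H24.VP (RR chS)

variable {k K : Type} [Field k] [Field K] [Algebra k K] {X : Mod k K} {r : ℕ}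
  {ν : Cart X →* Multiplicative (Fin r → ℤ)}

theorem loc_poly [CharZero k] [IsAlgClosed k] [T0Space X.P] {T : Cart X → Cart X → Cart X → ℝ} {l : Cart X → ℝ} {c : ℝ}
    {TR : Tri3 r} (h : Hyp X) (hr : RR T l c) (hν : NumR ν)
    (hT : ∀ U V W, TR (cR ν U) (cR ν V) (cR ν W) = T U V W) {p : Fin r → ℝ} (hp : p ∈ closure (AmpR ν))
    (h3 : 0 < TR p p p) : RatAt ν p := by
  obtain ⟨A, hA⟩ := h.amp
  obtain ⟨L, -, hd⟩ := cc_dir h.var hν (l := fun D => T D A A) (fun U V => hr.tri.add U V A A)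
    (fun B hB => Pool.Agent.H24.VP.pos_amp h hr hB hA hA) hA
  rw [cl_eq h.var hν] at hp
  obtain ⟨η, F, h1, h2, h4, h5⟩ := local_poly h hr hν hT hA hp h3
  unfold RatAt
  rw [cl_eq h.var hν]
  exact loc_of hd hp h1 h2 h4 h5

end Pool.Agent.H39.TZ
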