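import Pool.Agent.H20.TP.Cur
import Pool.Agent.H54.RV.B10

/-!
# [H39 TZ N1] COROLLARY P (MP_e49dc9_ag): the two degrees on a curve

`inter D C` (H54/RV/Defs, sum of the orders at the places) and `dz hX x D` (H20/TP/Def, H41/TK, by numbers of sections).

`dz_zero`: if `inter D C = 0` for the curve `C` with generic point `x` then `dz hX x D = 0`.
PROOF.  `κ := X.kap x`, `Γ := subM hX x`, `crv_of` (H20/TP/Cur).  By `dz_inv`, `inter_inv` it is enough to exclude `d := dz hX x D > 0`.  Then `dz hX x (D ^ n) = n d`, so for large `n` `hz hX x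
(D ^ n) ≥ 2` (`hz_cur`): there are sections `s`, `t` of `resD hX x (D ^ n)` on `Γ` with `s ≠ 0`, `t` not a multiple of `s`.  So `t / s` is transcendental (`k` is algebraically closed) and has a
pole `p` (`exists_pole`).  As `t * eq` is in the ring of `p` at the centre of `p`, `ord_p (s * eq) ≥ 1`.
Now `inter (D ^ n) C = ∑ᶠ ord_q (rs x (D.eq c / D.eq x) ^ n)`, the sum over the places `q` with centre `c`, and `∑ᶠ ord_q s = 0` (`sum_ord`, H54/RV/A5; `zeros`, `fin_ord`: finite supports); the sum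
is `∑ᶠ ord_q (s * (resD hX x (D ^ n)).eq c)`, all terms are `≥ 0` (`s` is a section; the image of `X.O c` in `κ` is contained in the ring of `q`: `Cen`), and the term of `p` is `≥ 1`: so
`n * inter D C ≥ 1` (`inter_pow`), a contradiction.
-/

set_option autoImplicit false

namespace Pool.Agent.H39.TZ

open Pool.Agent.H54.RV Pool.Agent.H83.TU Pool.Agent.H83.TK Pool.Agent.H20.TD Pool.Agent.H20.TP

variable {k K : Type} [Field k] [Field K] [Algebra k K] {X : Mod k K}

private theorem n1_tr [IsAlgClosed k] {κ : Type} [Field κ] [Algebra k κ] (a : κ)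
    (h : ¬ ∃ c : k, algebraMap k κ c = a) : Transcendental k a := by
  intro h1
  have h2 : IsIntegral k a := h1.isIntegral
  have h3 : (minpoly k a).degree = 1 :=
    IsAlgClosed.degree_eq_one_of_irreducible k (minpoly.irreducible h2)
  exact h (minpoly.mem_range_of_degree_eq_one k a h3)

/-- two sections -/
private theorem n1_two {Y : Mod k K} (E : Cart Y) (h : 2 ≤ h0 E 1) :
    ∃ s t : K, Sec E 1 s ∧ Sec E 1 t ∧ s ≠ 0 ∧ ¬ ∃ c : k, algebraMap k K c = t / s := by
  have h1 : 0 < Module.finrank k (secL E 1) := by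
    have : h0 E 1 = Module.finrank k (secL E 1) := rfl
    omega
  have := Module.nontrivial_of_finrank_pos h1
  obtain ⟨s, hs⟩ := exists_ne (0 : secL E 1)
  by_contra hcon
  have h2 : Module.finrank k (secL E 1) ≤ 1 := by
    refine finrank_le_one s fun t => ?_
    by_contra hc
    refine hcon ⟨s.1, t.1, s.2, t.2, fun h0 => hs (Subtype.ext h0), ?_⟩
    rintro ⟨c, hc'⟩
    refine hc ⟨c, Subtype.ext ?_⟩
    have hs0 : (s : K) ≠ 0 := fun h0 => hs (Subtype.ext h0)
    show c • (s : K) = t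
    rw [Algebra.smul_def, hc', div_mul_cancel₀ _ hs0]
  have h3 : h0 E 1 = Module.finrank k (secL E 1) := rfl
  omega

private theorem n1_main [CharZero k] [IsAlgClosed k] (hX : IsVar X) (hA : ∃ A : Cart X, Ample A) (D : Cart X) {x : X.P}
    (hx : Algebra.trdeg k (X.kap x) = 1) (hD : inter D ⟨x, hx⟩ = 0) : dz hX x D ≤ 0 := by
  by_contra hd
  rw [not_le] at hd
  obtain ⟨χ, hχ⟩ := hz_cur hX hA hx
  obtain ⟨n, hn⟩ : ∃ n : ℕ, n = 2 * χ.natAbs + 2 := ⟨_, rfl⟩
  have h1 : dz hX x (D ^ n) = n * dz hX x D := dz_pow hX hA hx D n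
  have h2 : (n : ℤ) ≤ n * dz hX x D := le_mul_of_one_le_right (by positivity) hd
  have h3 := hχ (D ^ n) (by rw [h1]; omega)
  have h4 : 2 ≤ hz hX x (D ^ n) := by omega
  obtain ⟨s, t, hs, ht, hs0, hst⟩ := n1_two _ h4
  obtain ⟨p, hp⟩ := exists_pole hx (kap_fg hX x) (t / s) (n1_tr _ hst)
  have ht0 : t ≠ 0 := by
    rintro rfl
    exact hst ⟨0, by rw [map_zero, zero_div]⟩
  -- the value of a section at a place
  have key : ∀ (u : X.kap x), Sec (resD hX x (D ^ n)) 1 u → ∀ q : Place k (X.kap x),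
      u * X.rs x ((D ^ n).eq (ctr hX x q) / (D ^ n).eq x) ∈ q.R := by
    intro u hu q
    have hc := ctr_cen hX x q
    have h5 := hu ⟨ctr hX x q, hc.1⟩
    rw [pow_one] at h5
    obtain ⟨a, ha, h6⟩ := (subO_iff hX hc.1 _).1 h5
    have h7 := (hc.2.2 a ha).1
    rw [h6] at h7
    exact h7
  have hne : ∀ q : Place k (X.kap x), X.rs x ((D ^ n).eq (ctr hX x q) / (D ^ n).eq x) ≠ 0 := fun q =>
    (rs_ne x (quo_un _ x _ (ctr_cen hX x q).1).2.1).2 (quo_un _ x _ (ctr_cen hX x q).1)
  have hord : ∀ (u : X.kap x), u ≠ 0 → ∀ q : Place k (X.kap x),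
      q.ord (u * X.rs x ((D ^ n).eq (ctr hX x q) / (D ^ n).eq x)) =
        q.ord u + q.ord (X.rs x ((D ^ n).eq (ctr hX x q) / (D ^ n).eq x)) := fun u hu q =>
    ord_mul q _ _ hu (hne q)
  have hnn : ∀ (u : X.kap x), u ≠ 0 → Sec (resD hX x (D ^ n)) 1 u → ∀ q : Place k (X.kap x),
      0 ≤ q.ord u + q.ord (X.rs x ((D ^ n).eq (ctr hX x q) / (D ^ n).eq x)) := fun u hu hsec q => by
    rw [← hord u hu q]
    exact (ord_nonneg q _ (mul_ne_zero hu (hne q))).2 (key u hsec q)
  -- the sum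
  have hI : inter (D ^ n) ⟨x, hx⟩ = 0 := by rw [inter_pow hX, hD, mul_zero]
  rw [inter_eq hX] at hI
  have hg : (Function.support fun q : Place k (X.kap x) => q.ord s).Finite := fin_ord hx (kap_fg hX x) _ hs0
  have hq : (Function.support fun q : Place k (X.kap x) =>
      q.ord (X.rs x ((D ^ n).eq (ctr hX x q) / (D ^ n).eq x))).Finite := quo_fin hX (D ^ n) ⟨x, hx⟩
  have hsum : ∑ᶠ q : Place k (X.kap x),
      (q.ord s + q.ord (X.rs x ((D ^ n).eq (ctr hX x q) / (D ^ n).eq x))) = 0 := by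
    rw [finsum_add_distrib hg hq, sum_ord hx (kap_fg hX x) _ hs0, zero_add]
    exact hI
  have hle := single_le_finsum p (f := fun q : Place k (X.kap x) =>
      (q.ord s + q.ord (X.rs x ((D ^ n).eq (ctr hX x q) / (D ^ n).eq x))))
    ((hg.union hq).subset fun q hq' => by
      by_contra hcon
      rw [Set.mem_union, not_or] at hcon
      simp only [Function.mem_support, not_not, ne_eq] at hcon hq'
      exact hq' (by rw [hcon.1, hcon.2, add_zero])) (fun q => hnn s hs0 hs q)
  rw [hsum] at hle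
  have h8 := hnn t ht0 ht p
  have h9 : p.ord t = p.ord s + p.ord (t / s) := by
    rw [← ord_mul p _ _ hs0 (div_ne_zero ht0 hs0), mul_div_cancel₀ _ hs0]
  omega

theorem dz_zero [CharZero k] [IsAlgClosed k] (hX : IsVar X) (hA : ∃ A : Cart X, Ample A) (D : Cart X) {x : X.P}
    (hx : Algebra.trdeg k (X.kap x) = 1) (hD : inter D ⟨x, hx⟩ = 0) : dz hX x D = 0 := by
  refine le_antisymm (n1_main hX hA D hx hD) ?_
  have h1 := n1_main hX hA D⁻¹ hx (by rw [inter_inv hX, hD, neg_zero])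
  rw [dz_inv hX hA hx] at h1
  omega

end Pool.Agent.H39.TZ
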