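import Pool.Agent.H39.TZ.Bas
import Pool.Agent.H24.VP.Main
import Pool.Agent.H24.VP.Exi

/-!
# [H39 TZ Ne] COROLLARY P (MP_e49dc9_ag): big nef divisors have effective multiples

`big_eff`: `N` nef, `0 < T N N N`: `N ^ n` has a section for some `n ≥ 1` (`low2`).
`ne_of_big`: if all nonzero nef classes `p` have `p ^ 3 > 0` then `NE X`.
-/

set_option autoImplicit false

open Filter Topology

namespace Pool.Agent.H39.TZ

open Pool.Agent.H54.RV Pool.Agent.H83.TU Pool.Agent.H83.TK Pool.Agent.H39.TQ Pool.Agent.H20.TD Pool.Agent.H89.ZN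
  Pool.Agent.H24.VP Pool.Agent.H36.TZ Pool.Agent.H83.DC Pool.Agent.H57.KM Pool.Agent.H24.TK

variable {k K : Type} [Field k] [Field K] [Algebra k K] {X : Mod k K} {r : ℕ}
  {ν : Cart X →* Multiplicative (Fin r → ℤ)} {T : Cart X → Cart X → Cart X → ℝ} {l : Cart X → ℝ} {c : ℝ}

theorem nnp [CharZero k] [T0Space X.P] (h : Hyp X) (hr : RR T l c) {N H : Cart X} (hN : Nf N) (hH : Ample H)
    (h3 : 0 < T N N N) : 0 < T N N H := by
  obtain ⟨m, hm, hA⟩ := ample_add h.var H N⁻¹ hH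
  have h1 := nn_NC h hr hN hA
  rw [hr.tri.add3, hr.tri.pow3, hr.tri.inv3] at h1
  have h2 : 0 < (m : ℝ) * T N N H := by linarith
  have hm0 : (0 : ℝ) < m := by exact_mod_cast hm
  exact (mul_pos_iff_of_pos_left hm0).1 h2

theorem big_eff [CharZero k] [T0Space X.P] (h : Hyp X) (hr : RR T l c) {N : Cart X} (hN : Nf N)
    (h3 : 0 < T N N N) : ∃ (n : ℕ) (M : Cart X), 1 ≤ n ∧ Effective M ∧ NumZ (M * (N ^ n)⁻¹) := by
  obtain ⟨A, hA⟩ := h.amp
  obtain ⟨m, k', L, _, _, _, S, ψ, hm, hS⟩ := exists_sf h hA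
  obtain ⟨C, n₀, hlow⟩ := low2 hr hS (t_int hr h.amp) N hN (nnp h hr hN (ample_pow A m hm hA) h3)
  obtain ⟨K', hK'⟩ : ∃ K', K' = |l N| + |C| + |c| + 1 := ⟨_, rfl⟩
  obtain ⟨n, hn⟩ := exists_nat_gt (max (max (n₀ : ℝ) 1) (6 * K' / T N N N))
  have hn1 : (n₀ : ℝ) < n := lt_of_le_of_lt ((le_max_left _ _).trans (le_max_left _ _)) hn
  have hn2 : (1 : ℝ) < n := lt_of_le_of_lt ((le_max_right _ _).trans (le_max_left _ _)) hn
  have hn3 := lt_of_le_of_lt (le_max_right _ _) hn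
  rw [div_lt_iff₀ h3] at hn3
  have h1 := hlow n (by exact_mod_cast hn1.le)
  have h4 : chi T l c (N ^ n) = (n : ℝ) ^ 3 * T N N N / 6 + n * l N + c := by
    unfold chi
    rw [hr.tri.pow, hr.tri.pow2, hr.tri.pow3, hr.l_pow]
    ring
  have hb : 0 ≤ K' := by rw [hK']; positivity
  have h5 : 0 < h0 (N ^ n) 1 := by
    have h6 : (n : ℝ) * K' < n ^ 3 * T N N N / 6 := by
      have h7 : (n : ℝ) ^ 2 * (6 * K') ≤ n ^ 2 * (n * T N N N) := mul_le_mul_of_nonneg_left hn3.le (by positivity)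
      have h8 : (n : ℝ) * K' ≤ n ^ 2 * K' := by
        rw [sq]
        exact mul_le_mul_of_nonneg_right (le_mul_of_one_le_left (by positivity) hn2.le) hb
      have h9 : (n : ℝ) ^ 2 * (6 * K') < n ^ 2 * (n * T N N N) := mul_lt_mul_of_pos_left hn3 (by positivity)
      nlinarith
    have h7 : |C| + |c| + n * |l N| < n * K' := by
      rw [hK']
      have hC := abs_nonneg C
      have hc := abs_nonneg c
      nlinarith
    have h8 : -(n * |l N|) ≤ n * l N := by
      have := neg_abs_le (l N)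
      nlinarith
    have : (0 : ℝ) < h0 (N ^ n) 1 := by
      have hC := le_abs_self C
      have hc := neg_abs_le c
      linarith
    exact_mod_cast this
  have h6 : ∃ s : secL (N ^ n) 1, s ≠ 0 := by
    by_contra h7
    push Not at h7
    have h8 : Subsingleton (secL (N ^ n) 1) := ⟨fun a b => by rw [h7 a, h7 b]⟩
    unfold h0 at h5
    rw [Module.finrank_zero_of_subsingleton] at h5
    exact lt_irrefl _ h5
  obtain ⟨s, hs⟩ := h6
  have hs0 : (s : K) ≠ 0 := fun h7 => hs (Subtype.ext h7)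
  refine ⟨n, N ^ n * prin X (s : K) hs0, by exact_mod_cast hn2.le, fun x => ?_, ?_⟩
  · have h7 := s.2 x
    rw [pow_one, mul_comm] at h7
    rw [mul_eq]
    exact h7
  · rw [mul_comm (N ^ n), mul_inv_cancel_right]
    exact numz_prin _ hs0

theorem nf_of_cl (hX : IsVar X) (hν : NumR ν) {D : Cart X} (hD : rv (ci ν D) ∈ closure (AmpR ν)) : Nf D := by
  intro A hA
  rw [cl_eq hX hν] at hD
  refine cc_ample (ν := ν) ?_
  rw [ci_mul, rv_add]
  exact (oc_cc hX hν).add_cl (cc_amp hX hν hA) hD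

/-- the integral nef classes are effective if all nonzero nef classes have a positive cube -/
theorem ne_of_big [IsAlgClosed k] [CharZero k] [T0Space X.P] (h : Hyp X) (hr : RR T l c) (hν : NumR ν) {b : LatB X r}
    (hb : ∀ D, cl D = pt b (rv (ci ν D)))
    (h3 : ∀ D : Cart X, rv (ci ν D) ∈ closure (AmpR ν) → rv (ci ν D) ≠ 0 → 0 < T D D D) : NE X := by
  intro D hD
  have hD' := hD
  rw [hb, ← pt_nef h.var hb] at hD'
  by_cases h0 : rv (ci ν D) = 0
  · rw [hb, h0, pt_zero]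
    exact ⟨0, Fin.elim0, Fin.elim0, fun i => i.elim0, fun i => i.elim0, by simp⟩
  · obtain ⟨n, M, hn, hM, hz⟩ := big_eff h hr (nf_of_cl h.var hν hD') (h3 D hD' h0)
    have h1 := numz_cl h.var h.amp _ hz
    rw [cl_mul h.var, cl_inv h.var, cl_pow h.var, add_neg_eq_zero] at h1
    have hn0 : (0 : ℝ) < n := by exact_mod_cast hn
    refine ⟨1, fun _ => (n : ℝ)⁻¹, fun _ => M, fun _ => by positivity, fun _ => hM, ?_⟩
    rw [Fin.sum_univ_one, h1, smul_smul, inv_mul_cancel₀ hn0.ne', one_smul]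

end Pool.Agent.H39.TZ
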