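import Pool.Agent.H39.TZ.Def

/-!
# [H39 TZ Nef] THEOREM Z (MP_e49dc9_ag): nef classes in coordinates

`nfr_of`: `p` in the closure of the ample cone satisfies `Nfr A E p`, `E` a basis.
-/

set_option autoImplicit false

open Filter Topology

namespace Pool.Agent.H39.TZ

open Pool.Agent.H54.RV Pool.Agent.H83.TU Pool.Agent.H39.TQ Pool.Agent.H20.TD Pool.Agent.H20.TP Pool.Agent.H89.ZN
  Pool.Agent.H24.VP Pool.Agent.H36.TZ

variable {k K : Type} [Field k] [Field K] [Algebra k K] {X : Mod k K} {r : ℕ}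
  {ν : Cart X →* Multiplicative (Fin r → ℤ)}

theorem ci_prod {ι : Type*} (s : Finset ι) (f : ι → Cart X) : ci ν (∏ i ∈ s, f i) = ∑ i ∈ s, ci ν (f i) := by
  unfold ci
  rw [map_prod, toAdd_prod]

theorem ci_pw {E : Fin r → Cart X} (hE : ∀ i, ci ν (E i) = Pi.single i 1) (n : Fin r → ℤ) : ci ν (pw E n) = n := by
  unfold pw
  rw [ci_prod]
  funext j
  simp only [ci_zpow, hE, Finset.sum_apply, Pi.smul_apply, Pi.single_apply, smul_eq_mul]
  simp

theorem exists_E (hν : NumR ν) : ∃ E : Fin r → Cart X, ∀ i, ci ν (E i) = Pi.single i 1 := by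
  classical
  choose E hE using fun i : Fin r => ci_surj hν (Pi.single i 1)
  exact ⟨E, hE⟩

theorem oc_cc (hX : IsVar X) (hν : NumR ν) : OC (CC ν) :=
  ⟨cc_open, fun _ hx _ hy => cc_add hX hν hx hy, fun _ hc _ hx => cc_smul hc hx⟩

theorem nfr_of (hX : IsVar X) (hν : NumR ν) {A : Cart X} (hA : Ample A) {E : Fin r → Cart X}
    (hE : ∀ i, ci ν (E i) = Pi.single i 1) {p : Fin r → ℝ} (hp : p ∈ closure (AmpR ν)) : Nfr A E p := by
  rw [cl_eq hX hν] at hp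
  have hO := oc_cc hX hν
  have key : ∀ n : ℕ, ∃ N : ℕ, n + 1 ≤ N ∧
      Ample (pw E (fun i => ⌊(N : ℝ) * p i⌋) * A ^ ⌈(N : ℝ) * (1 / ((n : ℝ) + 1))⌉₊) := by
    intro n
    have hn : (0 : ℝ) < 1 / ((n : ℝ) + 1) := by positivity
    have h1 : (1 / ((n : ℝ) + 1)) • rv (ci ν A) + p ∈ CC ν :=
      hO.add_cl (cc_smul hn (cc_amp hX hν hA)) hp
    obtain ⟨δ, hδ, h2⟩ := h1
    obtain ⟨N, hN⟩ := exists_nat_gt (max ((n : ℝ) + 1) ((1 + ‖rv (ci ν A)‖) / δ))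
    have hN1 : (n : ℝ) + 1 < N := (le_max_left _ _).trans_lt hN
    have hN2 := (le_max_right _ _).trans_lt hN
    rw [div_lt_iff₀ hδ] at hN2
    have hN0 : (0 : ℝ) < N := lt_trans (by positivity) hN1
    refine ⟨N, by exact_mod_cast hN1.le, h2 N _ (by exact_mod_cast hN0) ?_⟩
    obtain ⟨M, hM⟩ : ∃ M : ℕ, M = ⌈(N : ℝ) * (1 / ((n : ℝ) + 1))⌉₊ := ⟨_, rfl⟩
    have hM1 : (N : ℝ) * (1 / ((n : ℝ) + 1)) ≤ M := by rw [hM]; exact Nat.le_ceil _
    have hM2 : (M : ℝ) ≤ N * (1 / ((n : ℝ) + 1)) + 1 := by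
      rw [hM]
      exact (Nat.ceil_lt_add_one (by positivity)).le
    rw [← hM]
    have e1 : rv (ci ν (pw E (fun i => ⌊(N : ℝ) * p i⌋) * A ^ M)) - (N : ℝ) • ((1 / ((n : ℝ) + 1)) • rv (ci ν A) + p) =
        (rv (fun i => ⌊(N : ℝ) * p i⌋) - (N : ℝ) • p) + ((M : ℝ) - N * (1 / ((n : ℝ) + 1))) • rv (ci ν A) := by
      rw [ci_mul, ci_pw hE, ci_pow, rv_add, rv_smul, smul_add, smul_smul, sub_smul]
      push_cast
      abel
    rw [e1]
    have e2 : ‖rv (fun i => ⌊(N : ℝ) * p i⌋) - (N : ℝ) • p‖ ≤ 1 := by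
      rw [pi_norm_le_iff_of_nonneg zero_le_one]
      intro i
      rw [Pi.sub_apply, Pi.smul_apply, smul_eq_mul, Real.norm_eq_abs, abs_le]
      have h3 := Int.floor_le ((N : ℝ) * p i)
      have h4 := Int.lt_floor_add_one ((N : ℝ) * p i)
      show -1 ≤ ((⌊(N : ℝ) * p i⌋ : ℤ) : ℝ) - N * p i ∧ ((⌊(N : ℝ) * p i⌋ : ℤ) : ℝ) - N * p i ≤ 1
      constructor <;> linarith
    have e3 : ‖((M : ℝ) - N * (1 / ((n : ℝ) + 1))) • rv (ci ν A)‖ ≤ ‖rv (ci ν A)‖ := by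
      rw [norm_smul, Real.norm_eq_abs]
      refine mul_le_of_le_one_left (norm_nonneg _) ?_
      rw [abs_le]
      constructor <;> linarith
    refine (norm_add_le _ _).trans ?_
    linarith
  choose N hN hAm using key
  have hNpos : ∀ n, (0 : ℝ) < N n := fun n => by
    have h1 : (n : ℝ) + 1 ≤ N n := by exact_mod_cast hN n
    have : (0 : ℝ) ≤ n := Nat.cast_nonneg n
    linarith
  have hinv : Tendsto (fun n : ℕ => 1 / ((n : ℝ) + 1)) atTop (𝓝 0) := tendsto_one_div_add_atTop_nhds_zero_nat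
  have hNinv : ∀ n, 1 / (N n : ℝ) ≤ 1 / ((n : ℝ) + 1) := fun n =>
    one_div_le_one_div_of_le (by positivity) (by exact_mod_cast hN n)
  refine ⟨fun n i => ⌊(N n : ℝ) * p i⌋, fun n => ⌈(N n : ℝ) * (1 / ((n : ℝ) + 1))⌉₊, fun n => N n, hNpos, hAm,
    fun i => ?_, ?_⟩
  · rw [tendsto_iff_norm_sub_tendsto_zero]
    refine squeeze_zero (fun n => norm_nonneg _) (fun n => ?_) hinv
    refine le_trans ?_ (hNinv n)
    have h3 := Int.floor_le ((N n : ℝ) * p i)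
    have h4 := Int.lt_floor_add_one ((N n : ℝ) * p i)
    have e : ((⌊(N n : ℝ) * p i⌋ : ℤ) : ℝ) / N n - p i = (((⌊(N n : ℝ) * p i⌋ : ℤ) : ℝ) - N n * p i) / N n := by
      rw [sub_div, mul_div_cancel_left₀ _ (hNpos n).ne']
    rw [e, Real.norm_eq_abs, abs_div, abs_of_pos (hNpos n)]
    refine div_le_div_of_nonneg_right ?_ (hNpos n).le
    rw [abs_le]
    constructor <;> linarith
  · have h2 : Tendsto (fun n : ℕ => 1 / ((n : ℝ) + 1) + 1 / ((n : ℝ) + 1)) atTop (𝓝 0) := by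
      have := hinv.add hinv
      rwa [add_zero] at this
    refine squeeze_zero (fun n => div_nonneg (Nat.cast_nonneg _) (hNpos n).le) (fun n => ?_) h2
    have h5 : (⌈(N n : ℝ) * (1 / ((n : ℝ) + 1))⌉₊ : ℝ) ≤ N n * (1 / ((n : ℝ) + 1)) + 1 :=
      (Nat.ceil_lt_add_one (by positivity)).le
    rw [div_le_iff₀ (hNpos n)]
    have h6 : 1 ≤ 1 / ((n : ℝ) + 1) * N n := by
      rw [one_div, inv_mul_eq_div, le_div_iff₀ (by positivity), one_mul]
      exact_mod_cast hN n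
    linarith

end Pool.Agent.H39.TZ
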