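import Pool.Agent.H39.TZ.N1
import Pool.Agent.H39.TZ.N2
import Pool.Agent.H39.TZ.Asm

/-!
# [H39 TZ Nt] COROLLARY P (MP_e49dc9_ag): Kleiman's theorem from the criterion of Nakai at real classes

`nt_of`: if the nef classes `p` with `p ^ 3 > 0`, `p . p . S > 0` for all surfaces, `p . x > 0` for all curves, are in the open cone `CC ν`, then
the sum of an ample divisor and a divisor `D` with `D . C = 0` for all curves `C` is ample.
-/

set_option autoImplicit false

namespace Pool.Agent.H39.TZ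

open Pool.Agent.H54.RV Pool.Agent.H83.TU Pool.Agent.H83.TK Pool.Agent.H20.TD Pool.Agent.H20.TP
open Pool.Agent.H24.VP (RR chS)

variable {k K : Type} [Field k] [Field K] [Algebra k K] {X : Mod k K} {r : ℕ}
  {ν : Cart X →* Multiplicative (Fin r → ℤ)} {T : Cart X → Cart X → Cart X → ℝ} {l : Cart X → ℝ} {c : ℝ} {TR : Tri3 r}

theorem nt_of [CharZero k] [IsAlgClosed k] [T0Space X.P] (h : Hyp X) (hr : RR T l c) (hν : NumR ν)
    (hT : ∀ U V W, TR (Pool.Agent.H20.TP.cR ν U) (Pool.Agent.H20.TP.cR ν V) (Pool.Agent.H20.TP.cR ν W) = T U V W)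
    (hgood : ∀ p ∈ closure (CC ν), 0 < TR p p p →
      (∀ (z : X.P) (S : Cart X), Algebra.trdeg k (X.kap z) = 2 → SPr X z S → 0 < TR p p (Pool.Agent.H20.TP.cR ν S)) →
      (∀ x : X.P, Algebra.trdeg k (X.kap x) = 1 → 0 < dR hν h.var x p) → p ∈ CC ν) : NT X := by
  intro A D hA hD
  by_contra hcon
  obtain ⟨a, ha⟩ : ∃ a, a = rv (ci ν A) := ⟨_, rfl⟩
  obtain ⟨d, hd⟩ : ∃ d, d = rv (ci ν D) := ⟨_, rfl⟩
  -- the forms vanish
  have hdz : ∀ x : X.P, Algebra.trdeg k (X.kap x) = 1 → dz h.var x D = 0 := by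
    intro x hx
    refine dz_zero h.var h.amp D hx ?_
    have h1 := cl_fn D ⟨x, hx⟩
    rw [hD, fn_zero] at h1
    exact_mod_cast h1.symm
  have hT0 := T_zero h hr hdz
  have hTd : TR d = 0 := ext_uniq hν fun V => ext_uniq hν fun W => by
    have h1 := hT D V W
    rw [hT0] at h1
    rw [hd]
    exact h1
  have hs : ∀ u v w, TR u v w = TR v u w := fun u v w => by
    have h1 : TR = TR.flip := ext_uniq hν fun U => ext_uniq hν fun V => ext_uniq hν fun W => by
      have h2 := hT U V W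
      have h3 := hT V U W
      rw [LinearMap.flip_apply]
      rw [hr.tri.s12] at h2
      exact h2.trans h3.symm
    exact LinearMap.congr_fun (LinearMap.congr_fun (LinearMap.congr_fun h1 u) v) w
  have hs2 : ∀ u v w, TR u v w = TR u w v := fun u v w => by
    have h1 : (TR.flip v).flip w = (TR.flip w).flip v := ext_uniq hν fun U => by
      have h2 : TR (rv (ci ν U)) = (TR (rv (ci ν U))).flip :=
        ext_uniq hν fun V => ext_uniq hν fun W => by
          have h3 := hT U V W
          have h4 := hT U W V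
          rw [LinearMap.flip_apply]
          rw [hr.tri.s23] at h3
          exact h3.trans h4.symm
      exact LinearMap.congr_fun (LinearMap.congr_fun h2 v) w
    exact LinearMap.congr_fun h1 u
  have hd1 : ∀ v w, TR d v w = 0 := fun v w => by rw [hTd]; rfl
  have hd2 : ∀ u w, TR u d w = 0 := fun u w => by rw [hs, hd1]
  have hd3 : ∀ u v, TR u v d = 0 := fun u v => by rw [hs2, hd2]
  -- the last class
  have hO := oc_cc h.var hν
  have h1 : a + (1 : ℝ) • d ∉ CC ν := by
    rw [one_smul, ha, hd, ← rv_add, ← ci_mul]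
    exact fun h2 => hcon (cc_ample h2)
  have hcont : Continuous fun t : ℝ => a + t • d := by fun_prop
  obtain ⟨Q, hQ⟩ : ∃ Q : Set ℝ, Q = {t | 0 ≤ t ∧ a + t • d ∉ CC ν} := ⟨_, rfl⟩
  have hQc : IsClosed Q := by
    rw [hQ]
    exact isClosed_Ici.inter (isClosed_compl_iff.2 (cc_open.preimage hcont))
  have hQn : Q.Nonempty := ⟨1, by rw [hQ]; exact ⟨zero_le_one, h1⟩⟩
  have hQb : BddBelow Q := ⟨0, fun t ht => by rw [hQ] at ht; exact ht.1⟩
  have ht0 := hQc.csInf_mem hQn hQb
  obtain ⟨t₀, ht⟩ : ∃ t₀, t₀ = sInf Q := ⟨_, rfl⟩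
  rw [← ht] at ht0
  have ht1 : 0 ≤ t₀ ∧ a + t₀ • d ∉ CC ν := by rw [hQ] at ht0; exact ht0
  have ht2 : ∀ t : ℝ, 0 ≤ t → t < t₀ → a + t • d ∈ CC ν := by
    intro t h2 h3
    by_contra h4
    have h5 : t ∈ Q := by rw [hQ]; exact ⟨h2, h4⟩
    have h6 := csInf_le hQb h5
    rw [← ht] at h6
    exact absurd h3 (not_lt.2 h6)
  have ht3 : 0 < t₀ := by
    rcases ht1.1.lt_or_eq with h2 | h2
    · exact h2
    · exfalso
      apply ht1.2
      rw [← h2, zero_smul, add_zero, ha]
      exact cc_amp h.var hν hA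
  have hp : a + t₀ • d ∈ closure (CC ν) := by
    have h2 : Filter.Tendsto (fun n : ℕ => a + (t₀ - t₀ * (1 / ((n : ℝ) + 1))) • d) Filter.atTop
        (nhds (a + (t₀ - t₀ * 0) • d)) :=
      (hcont.tendsto _).comp (tendsto_const_nhds.sub (tendsto_one_div_add_atTop_nhds_zero_nat.const_mul t₀))
    rw [mul_zero, sub_zero] at h2
    refine mem_closure_of_tendsto h2 (Filter.Eventually.of_forall fun n => ht2 _ ?_ ?_)
    · have h3 : 1 / ((n : ℝ) + 1) ≤ 1 := by
        rw [div_le_one (by positivity)]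
        have : (0 : ℝ) ≤ n := Nat.cast_nonneg n
        linarith
      nlinarith
    · have h3 : 0 < 1 / ((n : ℝ) + 1) := by positivity
      have := mul_pos ht3 h3
      linarith
  refine ht1.2 (hgood _ hp ?_ ?_ ?_)
  · simp only [map_add, map_smul, LinearMap.add_apply, LinearMap.smul_apply, hd1, hd2, hd3, smul_zero, add_zero]
    have h2 := hT A A A
    rw [ha]
    exact h2.symm ▸ Pool.Agent.H24.VP.pos_amp h hr hA hA hA
  · intro z S hz hS
    simp only [map_add, map_smul, LinearMap.add_apply, LinearMap.smul_apply, hd1, hd2, smul_zero, add_zero]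
    obtain ⟨P, h2, h3⟩ := pdiv_of_trdeg h hz
    have h4 : P.η = z := (h2.antisymm h3).eq
    have h5 := hT A A S
    rw [ha]
    rw [← h4] at hS
    exact h5.symm ▸ Pool.Agent.H24.VP.pos_prm h hr hA hA P hS
  · intro x hx
    have h2 := dR_ci hν h.var h.amp hx A
    have h3 := dR_ci hν h.var h.amp hx D
    have h4 : dR hν h.var x (a + t₀ • d) = dz h.var x A := by
      rw [map_add, map_smul, ha, hd]
      have h5 : dR hν h.var x (rv (ci ν D)) = 0 := by
        refine h3.trans ?_
        rw [hdz x hx, Int.cast_zero]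
      rw [h5, smul_zero, add_zero]
      exact h2
    rw [h4]
    exact_mod_cast dz_pos h.var h.amp hx (res_ample h.var x _ hA)

end Pool.Agent.H39.TZ
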