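import Pool.Agent.H39.TZ.Nt
import Pool.Agent.H39.TZ.Ne
import Pool.Agent.H83.TU.SE
import Pool.Agent.H20.TU.SMB
import Pool.Agent.H32.TK.T0

/-!
# [H39 TZ Pf] COROLLARY P (MP_e49dc9_ag): assembly

`p_of`: if all nonzero nef classes have a positive cube, the nef cone is defined by finitely many integral functionals (`hpoly`), and the criterion
of Nakai holds at real classes (`hgood`) then Q1 holds.
`zp_of`: the final statement.
-/

set_option autoImplicit false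

namespace Pool.Agent.H39.TZ

open AlgebraicGeometry Pool.Agent.H57.KM
open Pool.Agent.H54.RV Pool.Agent.H83.TU Pool.Agent.H83.TK Pool.Agent.H20.TD Pool.Agent.H20.TP
open Pool.Agent.H24.VP (RR chS)
open Pool.Agent.H39.TQ Pool.Agent.H89.ZN Pool.Agent.H36.TZ

section gen

variable {k K : Type} [Field k] [Field K] [Algebra k K] (X : Mod k K) {r : ℕ}
  (ν : Cart X →* Multiplicative (Fin r → ℤ))

/-- the criterion of Nakai at real classes -/
def NakR (hX : IsVar X) (hν : NumR ν) (TR : Tri3 r) : Prop :=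
  ∀ p ∈ closure (CC ν), 0 < TR p p p →
    (∀ (z : X.P) (S : Cart X), Algebra.trdeg k (X.kap z) = 2 → SPr X z S → 0 < TR p p (Pool.Agent.H20.TP.cR ν S)) →
    (∀ x : X.P, Algebra.trdeg k (X.kap x) = 1 → 0 < dR hν hX x p) → p ∈ CC ν

/-- the nef cone is defined by finitely many integral functionals -/
def Poly : Prop := ∃ F : Finset (Fin r → ℤ), closure (AmpR ν) = {v | ∀ φ ∈ F, 0 ≤ toR φ ⬝ᵥ v}

end gen

variable {Y : Scheme.{0}} [IsIntegral Y] (f : Y ⟶ Spec (.of ℂ)) [IsProper f]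

theorem p_of [T0Space (mdl f).P] (h : Hyp (mdl f)) {r : ℕ} {ν : Cart (mdl f) →* Multiplicative (Fin r → ℤ)}
    (hν : NumR ν) {T : Cart (mdl f) → Cart (mdl f) → Cart (mdl f) → ℝ} {l : Cart (mdl f) → ℝ} {c : ℝ} (hr : RR T l c)
    {TR : Tri3 r}
    (hT : ∀ U V W, TR (Pool.Agent.H20.TP.cR ν U) (Pool.Agent.H20.TP.cR ν V) (Pool.Agent.H20.TP.cR ν W) = T U V W)
    (hN : NakR (mdl f) ν h.var hν TR) (hP : Poly (mdl f) ν)
    (hb : ∀ p ∈ closure (AmpR ν), p ≠ 0 → 0 < TR p p p) :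
    RatPolyC (NefC (mdl f)) ∧ NefC (mdl f) ⊆ EffC (mdl f) ∧ Q1Y f := by
  obtain ⟨b, hb'⟩ := exists_b h.var h.amp hν (nt_of h hr hν hT hN)
  obtain ⟨F, hF⟩ := hP
  refine Pool.Agent.H39.TP.q1_poly f h.amp b F ?_ ?_
  · rw [pt_amp h.var hb']
    exact hF
  · refine ne_of_big h hr hν hb' fun D hD h0 => ?_
    have h1 := hb _ hD h0
    have h2 := hT D D D
    exact h2 ▸ h1

/-- **THEOREM Z and COROLLARY P** -/
theorem zp_of [T0Space (mdl f).P] (h : Hyp (mdl f)) {r : ℕ} {ν : Cart (mdl f) →* Multiplicative (Fin r → ℤ)}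
    (hν : NumR ν) (hH : HypH (mdl f))
    (hz : ∀ (T : Cart (mdl f) → Cart (mdl f) → Cart (mdl f) → ℝ) (l : Cart (mdl f) → ℝ) (c : ℝ) (m : ℕ)
      (A : Cart (mdl f)) (E : Fin m → Cart (mdl f)) (y : Fin m → ℝ), RR T l c → Ample A → Nfr A E y → p3 T E y = 0 →
        0 < dl l E y → Pen T E y ∨ Cur h.var h.gen E y)
    (hN : ∀ (T : Cart (mdl f) → Cart (mdl f) → Cart (mdl f) → ℝ) (l : Cart (mdl f) → ℝ) (c : ℝ) (TR : Tri3 r), RR T l c →
      (∀ U V W, TR (Pool.Agent.H20.TP.cR ν U) (Pool.Agent.H20.TP.cR ν V) (Pool.Agent.H20.TP.cR ν W) = T U V W) →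
        NakR (mdl f) ν h.var hν TR ∧
          ((∀ p ∈ closure (AmpR ν), p ≠ 0 → 0 < TR p p p) → Poly (mdl f) ν)) :
    ∃ (T : Tri3 r) (l : (Fin r → ℝ) →ₗ[ℝ] ℝ) (c : ℝ), HilbR ν T l c ∧
      (∀ p ∈ closure (AmpR ν), 0 < l p → 0 < T p p p ∨ FamB ν T p ∨ FamC ν p) ∧
      ((∀ p ∈ closure (AmpR ν), p ≠ 0 → T p p p = 0 → 0 < l p ∧ ¬ FamB ν T p ∧ ¬ FamC ν p) →
        RatPolyC (NefC (mdl f)) ∧ NefC (mdl f) ⊆ EffC (mdl f) ∧ Q1Y f) := by
  obtain ⟨T₀, l₀, c, T, l, hT₀, hT, hl, hR⟩ := exists_hilbR h hν hH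
  have hr := hT₀.rr
  have hZ : ∀ p ∈ closure (AmpR ν), 0 < l p → 0 < T p p p ∨ FamB ν T p ∨ FamC ν p := fun p hp hlp =>
    z_co h hν hr hT hl (fun m A E y hA h1 h2 h3 => hz _ _ _ m A E y hr hA h1 h2 h3) hp hlp
  obtain ⟨h1, h2⟩ := hN _ _ _ _ hr hT
  refine ⟨T, l, c, hR, hZ, fun hH' => ?_⟩
  have hb : ∀ p ∈ closure (AmpR ν), p ≠ 0 → 0 < T p p p := by
    intro p hp h0
    rcases (cube_nn h hr hT hp).lt_or_eq with h3 | h3
    · exact h3
    · obtain ⟨h4, h5, h6⟩ := hH' p hp h0 h3.symm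
      rcases hZ p hp h4 with h7 | h7 | h7
      · exact h7
      · exact absurd h7 h5
      · exact absurd h7 h6
  exact p_of f h hν hr hT h1 (h2 hb) hb

end Pool.Agent.H39.TZ
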