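import Pool.Agent.H39.TZ.Pf
import Pool.Agent.H39.TZ.LocP
import Pool.Agent.H20.TP.Poly
import Pool.Agent.H32.TN.Eff
import Pool.Agent.H89.ZN.Thm

/-!
# [H39 TZ Pf2] THEOREM Z and COROLLARY P (MP_e49dc9_ag): assembly

`z_full`: THEOREM Z with the local structure of the nef cone and the effectivity of real nef classes (helper32).
`zpe`: the final statement.
-/

set_option autoImplicit false

namespace Pool.Agent.H39.TZ

open AlgebraicGeometry Pool.Agent.H57.KM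
open Pool.Agent.H54.RV Pool.Agent.H83.TU Pool.Agent.H83.TK Pool.Agent.H20.TD Pool.Agent.H20.TP
open Pool.Agent.H24.VP (RR chS)
open Pool.Agent.H39.TQ Pool.Agent.H89.ZN Pool.Agent.H36.TZ Pool.Agent.H83.DC

section gen

variable {k K : Type} [Field k] [Field K] [Algebra k K] {X : Mod k K} {r : ℕ}
  {ν : Cart X →* Multiplicative (Fin r → ℤ)} {T : Cart X → Cart X → Cart X → ℝ} {l₀ : Cart X → ℝ} {c : ℝ}
  {TR : Tri3 r} {l : (Fin r → ℝ) →ₗ[ℝ] ℝ} {p : Fin r → ℝ}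

/-- the criterion of Nakai at real classes, from `good_cc` -/
theorem nak_r [CharZero k] [IsAlgClosed k] [T0Space X.P] (h : Hyp X) (hr : RR T l₀ c) (hν : NumR ν)
    (hT : ∀ U V W, TR (Pool.Agent.H20.TP.cR ν U) (Pool.Agent.H20.TP.cR ν V) (Pool.Agent.H20.TP.cR ν W) = T U V W) :
    NakR X ν h.var hν TR := fun _ hp h3 hS hC =>
  good_cc h hr hν hT hp h3 fun z S hz hzS => ⟨hS z S hz hzS, fun x hx => hC x hx.2⟩

theorem effr_zero : EffR ν (0 : Fin r → ℝ) :=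
  ⟨0, Fin.elim0, Fin.elim0, fun i => i.elim0, by simp⟩

theorem effr_of (hp : p ∈ Pool.Agent.H32.TN.EffR ν) : EffR ν p := by
  obtain ⟨m, a, E, h1, h2, h3⟩ := hp
  exact ⟨m, a, E, fun i => ⟨h1 i, h2 i⟩, h3⟩

/-- from `ℝ ^ r` to `N1 X` -/
theorem nefc_effc [CharZero k] [IsAlgClosed k] (hX : IsVar X) {b : LatB X r} (hb : ∀ D, cl D = pt b (rv (ci ν D)))
    (hE : ∀ p ∈ closure (AmpR ν), EffR ν p) : NefC X ⊆ EffC X := by
  have := fd_of_basis hX b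
  intro x hx
  obtain ⟨v, rfl⟩ := (pt_bij hX b).2 x
  rw [← pt_nef hX hb] at hx
  obtain ⟨m, a, E, h1, h2⟩ := hE v hx
  refine ⟨m, a, E, fun i => (h1 i).1, fun i => (h1 i).2, ?_⟩
  rw [h2, pt_sum]
  exact Finset.sum_congr rfl fun i _ => by rw [pt_smul, hb]

/-- **THEOREM Z**, with the local structure of the nef cone and effectivity -/
theorem z_full [IsAlgClosed k] [CharZero k] [T0Space X.P] (h : Hyp X) (hν : NumR ν) (hr : RR T l₀ c)
    (hT : ∀ U V W, TR (Pool.Agent.H20.TP.cR ν U) (Pool.Agent.H20.TP.cR ν V) (Pool.Agent.H20.TP.cR ν W) = T U V W)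
    (hl : ∀ D, l (Pool.Agent.H20.TP.cR ν D) = l₀ D) (hp : p ∈ closure (AmpR ν)) (hlp : 0 < l p) :
    FamB ν TR p ∨ ((TR p p ≠ 0 → EffR ν p) ∧ ((0 < TR p p p ∧ RatAt ν p) ∨ FamC2 ν TR p)) := by
  have hz : ∀ (m : ℕ) (A : Cart X) (E : Fin m → Cart X) (y : Fin m → ℝ), Ample A → Nfr A E y → p3 T E y = 0 →
      0 < dl l₀ E y → Pen T E y ∨ Cur h.var h.gen E y := fun m A E y hA h1 h2 h3 =>
    theorem_z h ν (fun D hD => (hν.ker D).1 hD) hr hA h1 h2 h3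
  by_cases hb : FamB ν TR p
  · exact Or.inl hb
  refine Or.inr ⟨fun hpp => effr_of ((Pool.Agent.H32.TN.eff_re h hν hr hT hl hz hp hlp hpp).resolve_left hb), ?_⟩
  rcases (cube_nn h hr hT hp).lt_or_eq with h3 | h3
  · exact Or.inl ⟨h3, loc_poly h hr hν hT hp h3⟩
  · rcases z_co h hν hr hT hl hz hp hlp with h4 | h4 | ⟨hX, hg, F, R, hF, hcl, hR, hRp⟩
    · rw [← h3] at h4
      exact absurd h4 (lt_irrefl 0)
    · exact absurd h4 hb
    · obtain ⟨τ, hτ, hsq⟩ := Pool.Agent.H32.TN.famc_sq h hr hν hT (by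
        rw [← cl_eq h.var hν]
        exact hp) hF (R := R) hR hRp
      exact Or.inr ⟨hX, hg, F, R, τ, hF, hcl, hR, hRp, hτ, hsq⟩

end gen

variable {Y : Scheme.{0}} [IsIntegral Y] (f : Y ⟶ Spec (.of ℂ)) [IsProper f]

/-- **THEOREM Z and COROLLARY P** -/
theorem zpe [T0Space (mdl f).P] (h : Hyp (mdl f)) {r : ℕ} {ν : Cart (mdl f) →* Multiplicative (Fin r → ℤ)}
    (hν : NumR ν) (hH : HypH (mdl f)) :
    ∃ (T : Tri3 r) (l : (Fin r → ℝ) →ₗ[ℝ] ℝ) (c : ℝ), HilbR ν T l c ∧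
      (∀ p ∈ closure (AmpR ν), 0 < l p →
        FamB ν T p ∨ ((T p p ≠ 0 → EffR ν p) ∧ ((0 < T p p p ∧ RatAt ν p) ∨ FamC2 ν T p))) ∧
      ((∀ p ∈ closure (AmpR ν), p ≠ 0 → T p p p = 0 → 0 < l p ∧ ¬ FamB ν T p ∧ T p p ≠ 0) →
        NefC (mdl f) ⊆ EffC (mdl f)) ∧
      ((∀ p ∈ closure (AmpR ν), p ≠ 0 → T p p p = 0 → 0 < l p ∧ ¬ FamB ν T p ∧ ¬ FamC2 ν T p) →
        NefC (mdl f) ⊆ EffC (mdl f) ∧ RatPolyC (NefC (mdl f)) ∧ Q1Y f) := by
  obtain ⟨T₀, l₀, c, T, l, hT₀, hT, hl, hR⟩ := exists_hilbR h hν hH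
  have hr := hT₀.rr
  obtain ⟨b, hb'⟩ := exists_b h.var h.amp hν (nt_of h hr hν hT (nak_r h hr hν hT))
  have hZ := fun (p : Fin r → ℝ) (hp : p ∈ closure (AmpR ν)) (hlp : 0 < l p) => z_full h hν hr hT hl hp hlp
  have hbig : ∀ p ∈ closure (AmpR ν), 0 < T p p p → EffR ν p := fun p hp h3 =>
    effr_of (Pool.Agent.H32.TN.eff_big h hr hν hT (by
      rw [← cl_eq h.var hν]
      exact hp) h3)
  refine ⟨T, l, c, hR, hZ, fun hH' => nefc_effc h.var hb' fun p hp => ?_, fun hH' => ?_⟩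
  · by_cases h0 : p = 0
    · rw [h0]
      exact effr_zero
    rcases (cube_nn h hr hT hp).lt_or_eq with h3 | h3
    · exact hbig p hp h3
    · obtain ⟨h4, h5, h6⟩ := hH' p hp h0 h3.symm
      exact ((hZ p hp h4).resolve_left h5).1 h6
  · have hb : ∀ p ∈ closure (AmpR ν), p ≠ 0 → 0 < T p p p := by
      intro p hp h0
      rcases (cube_nn h hr hT hp).lt_or_eq with h3 | h3
      · exact h3
      · obtain ⟨h4, h5, h6⟩ := hH' p hp h0 h3.symm
        exact (((hZ p hp h4).resolve_left h5).2.resolve_right h6).1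
    have hNE : NefC (mdl f) ⊆ EffC (mdl f) := nefc_effc h.var hb' fun p hp => by
      by_cases h0 : p = 0
      · rw [h0]
        exact effr_zero
      · exact hbig p hp (hb p hp h0)
    obtain ⟨F, hF⟩ := poly h hr hν hT hb
    obtain ⟨h1, -, h2⟩ := Pool.Agent.H39.TP.q1_poly f h.amp b F (by
      rw [pt_amp h.var hb']
      exact hF) fun D hD => hNE hD
    exact ⟨hNE, h1, h2⟩

end Pool.Agent.H39.TZ
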